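import Mathlib

/-! # Symmetric submodular systems: closed, open and clopen sets -/

namespace Pool.Agent.SKS

open Finset

/-- an abstract generic symmetric submodular system on `Fin n`: `wt u S` says that `u` wants to
belong to `S` (when the other elements are as in `S`), `f` is the cut function. -/
structure Sys (n : ℕ) where
  /-- `u` wants `S` -/
  wt : Fin n → Finset (Fin n) → Prop
  mono : ∀ {u : Fin n} {S S' : Finset (Fin n)}, S ⊆ S' → wt u S → wt u S'
  compl : ∀ (u : Fin n) (S : Finset (Fin n)), wt u Sᶜ ↔ ¬ wt u S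
  ins : ∀ (u : Fin n) (S : Finset (Fin n)), wt u (insert u S) ↔ wt u S
  /-- the cut function -/
  f : Finset (Fin n) → ℕ
  fcompl : ∀ S, f Sᶜ = f S
  fdec : ∀ u S, u ∉ S → wt u S → f (insert u S) < f S
  finj : ∀ S S', f S = f S' → S' = S ∨ S' = Sᶜ

variable {n : ℕ} (Y : Sys n)

namespace Sys

theorem erase_iff (u : Fin n) (S : Finset (Fin n)) : Y.wt u (S.erase u) ↔ Y.wt u S := by
  by_cases h : u ∈ S
  · rw [← Y.ins u (S.erase u), insert_erase h]
  · rw [erase_eq_of_notMem h]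

theorem finc {u : Fin n} {S : Finset (Fin n)} (hu : u ∉ S) (h : ¬ Y.wt u S) :
    Y.f S < Y.f (insert u S) := by
  have h1 : Y.wt u Sᶜ := (Y.compl u S).2 h
  have h2 : Y.wt u (Sᶜ.erase u) := (Y.erase_iff u _).2 h1
  have h3 := Y.fdec u (Sᶜ.erase u) (notMem_erase _ _) h2
  rw [insert_erase (mem_compl.2 hu), Y.fcompl] at h3
  have h4 : Sᶜ.erase u = (insert u S)ᶜ := by
    ext x
    simp only [mem_erase, mem_compl, mem_insert]
    tauto
  rw [h4, Y.fcompl] at h3
  exact h3

/-- nobody outside wants `S` -/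
def Cl (S : Finset (Fin n)) : Prop := ∀ u, u ∉ S → ¬ Y.wt u S

/-- everybody inside wants `S` -/
def Op (S : Finset (Fin n)) : Prop := ∀ u, u ∈ S → Y.wt u S

/-- closed and open -/
def CO (S : Finset (Fin n)) : Prop := Y.Cl S ∧ Y.Op S

variable {Y}

theorem CO.compl {S : Finset (Fin n)} (h : Y.CO S) : Y.CO Sᶜ := by
  refine ⟨fun u hu hw => ?_, fun u hu => ?_⟩
  · have hu' : u ∈ S := by simpa using hu
    exact (Y.compl u S).1 hw (h.2 u hu')
  · exact (Y.compl u S).2 (h.1 u (mem_compl.1 hu))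

theorem Cl.erase {S : Finset (Fin n)} (h : Y.Cl S) {v : Fin n} (hv : ¬ Y.wt v S) :
    Y.Cl (S.erase v) := by
  intro u hu hw
  by_cases huv : u = v
  · subst huv
    exact hv ((Y.erase_iff _ _).1 hw)
  · have : u ∉ S := fun q => hu (mem_erase.2 ⟨huv, q⟩)
    exact h u this (Y.mono (erase_subset _ _) hw)

theorem not_wt_empty (u : Fin n) : ¬ Y.wt u ∅ := by
  intro h
  have h1 : Y.wt u (∅ : Finset (Fin n))ᶜ := Y.mono (empty_subset _) h
  exact (Y.compl u ∅).1 h1 h

theorem cl_empty : Y.Cl ∅ := fun u _ => not_wt_empty u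

/-- nested clopen sets differ by at least two elements -/
theorem CO.gap {C C' : Finset (Fin n)} (h : Y.CO C) (h' : Y.CO C') (hs : C ⊆ C') (hne : C ≠ C') :
    C.card + 2 ≤ C'.card := by
  have h1 : C.card < C'.card := card_lt_card (hs.ssubset_of_ne hne)
  by_contra hcon
  have h2 : C'.card = C.card + 1 := by omega
  have h3 : (C' \ C).card = 1 := by
    rw [card_sdiff_of_subset hs]; omega
  obtain ⟨u, hu⟩ := card_eq_one.1 h3
  have hu1 : u ∈ C' \ C := by rw [hu]; exact mem_singleton_self _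
  rw [mem_sdiff] at hu1
  have h4 : C' = insert u C := by
    ext x
    constructor
    · intro hx
      by_cases hxC : x ∈ C
      · exact mem_insert_of_mem hxC
      · have : x ∈ C' \ C := mem_sdiff.2 ⟨hx, hxC⟩
        rw [hu, mem_singleton] at this
        rw [this]; exact mem_insert_self _ _
    · intro hx
      rcases mem_insert.1 hx with rfl | hx
      · exact hu1.1
      · exact hs hx
  have h5 : Y.wt u C' := h'.2 u hu1.1
  rw [h4, Y.ins] at h5
  exact h.1 u hu1.2 h5

/-- removing unhappy elements of a closed set -/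
theorem shrink {j : ℕ} (hj : ∀ M : Finset (Fin n), M.card = j → ¬ Y.Cl M) {D : Finset (Fin n)}
    (hD : Y.Cl D) (hcard : j + 1 ≤ D.card) : ∃ C ⊆ D, Y.CO C ∧ j + 1 ≤ C.card := by
  classical
  induction hk : D.card using Nat.strong_induction_on generalizing D with
  | _ k ih =>
    by_cases h : ∀ v ∈ D, Y.wt v D
    · exact ⟨D, Subset.rfl, ⟨hD, h⟩, hcard⟩
    · push Not at h
      obtain ⟨v, hv, hw⟩ := h
      have h1 : Y.Cl (D.erase v) := hD.erase hw
      have h2 : (D.erase v).card = D.card - 1 := card_erase_of_mem hv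
      have h3 : j + 1 ≤ (D.erase v).card := by
        have : (D.erase v).card ≠ j := fun q => hj _ q h1
        omega
      obtain ⟨C, hC, hCO, hc⟩ := ih (D.erase v).card (by omega) h1 h3 rfl
      exact ⟨C, hC.trans (erase_subset _ _), hCO, hc⟩

variable (Y)

open Classical in
/-- the closure -/
noncomputable def cl (E : Finset (Fin n)) : Finset (Fin n) :=
  univ.filter (fun v => ∀ S, Y.Cl S → E ⊆ S → v ∈ S)

variable {Y}

theorem subset_cl (E : Finset (Fin n)) : E ⊆ Y.cl E := by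
  classical
  intro v hv
  unfold cl
  rw [mem_filter]
  exact ⟨mem_univ _, fun S _ h => h hv⟩

theorem cl_subset {E S : Finset (Fin n)} (h : Y.Cl S) (hE : E ⊆ S) : Y.cl E ⊆ S := by
  classical
  intro v hv
  unfold cl at hv
  rw [mem_filter] at hv
  exact hv.2 S h hE

theorem cl_mono {E E' : Finset (Fin n)} (h : E ⊆ E') : Y.cl E ⊆ Y.cl E' := by
  classical
  intro v hv
  unfold cl at hv ⊢
  rw [mem_filter] at hv ⊢
  exact ⟨mem_univ _, fun S hS hES => hv.2 S hS (h.trans hES)⟩

theorem cl_Cl (E : Finset (Fin n)) : Y.Cl (Y.cl E) := by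
  classical
  intro u hu hw
  unfold cl at hu
  rw [mem_filter] at hu
  push Not at hu
  obtain ⟨S, hS, hES, huS⟩ := hu (mem_univ _)
  exact hS u huS (Y.mono (cl_subset hS hES) hw)

theorem cl_Op {E : Finset (Fin n)} (h : Y.Op E) : Y.Op (Y.cl E) := by
  intro v hv
  by_contra hw
  have h1 : Y.Cl ((Y.cl E).erase v) := (cl_Cl E).erase hw
  have h2 : E ⊆ (Y.cl E).erase v := by
    intro x hx
    refine mem_erase.2 ⟨fun q => ?_, subset_cl E hx⟩
    subst q
    exact hw (Y.mono (subset_cl E) (h x hx))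
  have h3 := cl_subset h1 h2 hv
  exact (mem_erase.1 h3).1 rfl

variable (Y)

open Classical in
/-- the union of the large clopen subsets of `R` -/
noncomputable def EE (j : ℕ) (R : Finset (Fin n)) : Finset (Fin n) :=
  univ.filter (fun v => ∃ C, Y.CO C ∧ j + 1 ≤ C.card ∧ C ⊆ R ∧ v ∈ C)

/-- its closure, a clopen set -/
noncomputable def PP (j : ℕ) (R : Finset (Fin n)) : Finset (Fin n) := Y.cl (Y.EE j R)

/-- `R` contains a large clopen set -/
def Good (j : ℕ) (R : Finset (Fin n)) : Prop := ∃ C, Y.CO C ∧ j + 1 ≤ C.card ∧ C ⊆ R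

variable {Y}

theorem Good.mono {j : ℕ} {R R' : Finset (Fin n)} (h : Y.Good j R) (hR : R ⊆ R') : Y.Good j R' := by
  obtain ⟨C, h1, h2, h3⟩ := h
  exact ⟨C, h1, h2, h3.trans hR⟩

theorem EE_mono {j : ℕ} {R R' : Finset (Fin n)} (hR : R ⊆ R') : Y.EE j R ⊆ Y.EE j R' := by
  classical
  intro v hv
  unfold EE at hv ⊢
  rw [mem_filter] at hv ⊢
  obtain ⟨_, C, h1, h2, h3, h4⟩ := hv
  exact ⟨mem_univ _, C, h1, h2, h3.trans hR, h4⟩

theorem PP_mono {j : ℕ} {R R' : Finset (Fin n)} (hR : R ⊆ R') : Y.PP j R ⊆ Y.PP j R' :=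
  cl_mono (EE_mono hR)

theorem EE_Op (j : ℕ) (R : Finset (Fin n)) : Y.Op (Y.EE j R) := by
  classical
  intro v hv
  have hv' := hv
  unfold EE at hv
  rw [mem_filter] at hv
  obtain ⟨_, C, h1, h2, h3, h4⟩ := hv
  refine Y.mono (fun x hx => ?_) (h1.2 v h4)
  unfold EE
  rw [mem_filter]
  exact ⟨mem_univ _, C, h1, h2, h3, hx⟩

theorem PP_CO (j : ℕ) (R : Finset (Fin n)) : Y.CO (Y.PP j R) := ⟨cl_Cl _, cl_Op (EE_Op j R)⟩

theorem PP_card {j : ℕ} {R : Finset (Fin n)} (h : Y.Good j R) : j + 1 ≤ (Y.PP j R).card := by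
  classical
  obtain ⟨C, h1, h2, h3⟩ := h
  refine h2.trans (card_le_card ?_)
  intro x hx
  apply subset_cl
  unfold EE
  rw [mem_filter]
  exact ⟨mem_univ _, C, h1, h2, h3, hx⟩

theorem PP_disj {j : ℕ} {R R' : Finset (Fin n)} (h : Disjoint R R') :
    Disjoint (Y.PP j R) (Y.PP j R') := by
  classical
  -- first: `PP j R` is disjoint from each large clopen subset of `R'`
  have key : ∀ {R R' : Finset (Fin n)}, Disjoint R R' → ∀ C, Y.CO C → C ⊆ R' →
      Disjoint (Y.PP j R) C := by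
    intro R R' h C hC hCR
    have h1 : Y.PP j R ⊆ Cᶜ := by
      refine cl_subset hC.compl.1 ?_
      intro v hv
      unfold EE at hv
      rw [mem_filter] at hv
      obtain ⟨_, D, _, _, hD, hvD⟩ := hv
      rw [mem_compl]
      intro hvC
      exact (disjoint_left.1 h (hD hvD)) (hCR hvC)
    exact disjoint_left.2 fun v hv hvC => (mem_compl.1 (h1 hv)) hvC
  have h2 : Y.PP j R' ⊆ (Y.PP j R)ᶜ := by
    refine cl_subset (PP_CO j R).compl.1 ?_
    intro v hv
    unfold EE at hv
    rw [mem_filter] at hv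
    obtain ⟨_, D, hD1, hD2, hD, hvD⟩ := hv
    rw [mem_compl]
    intro hvP
    exact disjoint_left.1 (key h D hD1 hD) hvP hvD
  exact disjoint_left.2 fun v hv hv' => (mem_compl.1 (h2 hv')) hv

end Sys

end Pool.Agent.SKS
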