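import Mathlib

/-! # Sign vectors, cubical chains modulo 2 and a Tucker type lemma -/

namespace Pool.Agent.SKS

open Finset Function

/-- sign vectors; a sign vector is the cube of all subsets that contain the coordinates `+`
and avoid the coordinates `-` -/
abbrev SV (n : ℕ) := Fin n → SignType

variable {n : ℕ}

/-- the coordinates `+` -/
def pos (σ : SV n) : Finset (Fin n) := univ.filter (fun z => σ z = 1)

/-- the coordinates `-` -/
def neg (σ : SV n) : Finset (Fin n) := univ.filter (fun z => σ z = -1)

/-- the dimension of a cube -/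
def dim (σ : SV n) : ℕ := (univ.filter (fun z => σ z = 0)).card

/-- sum over the cofaces of codimension one -/
def cof (c : SV n → ZMod 2) (τ : SV n) : ZMod 2 :=
  ∑ z, if τ z = 0 then 0 else c (update τ z 0)

/-- sum over the facets -/
def fac (g : SV n → ZMod 2) (σ : SV n) : ZMod 2 :=
  ∑ z, if σ z = 0 then g (update σ z 1) + g (update σ z (-1)) else 0

theorem two_eq_zero' (x : ZMod 2) : x + x = 0 := CharTwo.add_self_eq_zero x

theorem sign_cases (a : SignType) : a = 0 ∨ a = 1 ∨ a = -1 := by
  rcases a with _ | _ | _ <;> decide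

theorem update_zero_of {σ : SV n} {z : Fin n} (h : σ z = 0) (ε : SignType) :
    update (update σ z ε) z 0 = σ := by
  rw [update_idem, ← h, update_eq_self]

theorem dim_update_zero {τ : SV n} {z : Fin n} (h : τ z ≠ 0) :
    dim (update τ z 0) = dim τ + 1 := by
  unfold dim
  have : (univ.filter (fun y => update τ z 0 y = 0)) =
      insert z (univ.filter (fun y => τ y = 0)) := by
    ext y
    simp only [mem_filter, mem_univ, true_and, mem_insert]
    by_cases hy : y = z
    · subst hy; simp
    · rw [update_of_ne hy]; simp [hy]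
  rw [this, card_insert_of_notMem]
  simp [h]

theorem dim_update_of {σ : SV n} {z : Fin n} (h : σ z = 0) {ε : SignType} (hε : ε ≠ 0) :
    dim (update σ z ε) + 1 = dim σ := by
  have h1 : update σ z ε z ≠ 0 := by rw [update_self]; exact hε
  rw [← dim_update_zero h1, update_zero_of h]

theorem dim_neg (σ : SV n) : dim (-σ) = dim σ := by
  unfold dim
  congr 1
  ext y
  simp only [mem_filter, mem_univ, true_and, Pi.neg_apply]
  rcases sign_cases (σ y) with h | h | h <;> rw [h] <;> decide

theorem update_neg (σ : SV n) (z : Fin n) (ε : SignType) :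
    update (-σ) z ε = -(update σ z (-ε)) := by
  funext y
  by_cases hy : y = z
  · subst hy
    rw [update_self, Pi.neg_apply, update_self, neg_neg]
  · rw [update_of_ne hy, Pi.neg_apply, Pi.neg_apply, update_of_ne hy]

/-- duality between facets and cofaces -/
theorem duality (c g : SV n → ZMod 2) :
    ∑ σ, c σ * fac g σ = ∑ τ, g τ * cof c τ := by
  unfold fac cof
  simp only [Finset.mul_sum]
  rw [Finset.sum_comm, Finset.sum_comm (s := univ) (t := univ) (f := fun τ z =>
    g τ * if τ z = 0 then 0 else c (update τ z 0))]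
  refine Finset.sum_congr rfl fun z _ => ?_
  have key : ∀ ε : SignType, ε ≠ 0 →
      ∑ σ : SV n, (if σ z = 0 then c σ * g (update σ z ε) else 0) =
      ∑ τ : SV n, (if τ z = ε then g τ * c (update τ z 0) else 0) := by
    intro ε hε
    rw [← Finset.sum_filter, ← Finset.sum_filter]
    refine Finset.sum_nbij' (fun σ => update σ z ε) (fun τ => update τ z 0) ?_ ?_ ?_ ?_ ?_
    · intro σ hσ
      simp
    · intro τ hτ
      simp
    · intro σ hσ
      simp only [mem_filter, mem_univ, true_and] at hσ
      exact update_zero_of hσ ε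
    · intro τ hτ
      simp only [mem_filter, mem_univ, true_and] at hτ
      rw [update_idem, ← hτ, update_eq_self]
    · intro σ hσ
      simp only [mem_filter, mem_univ, true_and] at hσ
      rw [update_zero_of hσ ε, mul_comm]
  have h1 := key 1 (by decide)
  have h2 := key (-1) (by decide)
  have e1 : ∀ σ : SV n, c σ * (if σ z = 0 then g (update σ z 1) + g (update σ z (-1)) else 0) =
      (if σ z = 0 then c σ * g (update σ z 1) else 0) +
      (if σ z = 0 then c σ * g (update σ z (-1)) else 0) := by
    intro σ
    split_ifs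
    · ring
    · ring
  have e2 : ∀ τ : SV n, g τ * (if τ z = 0 then 0 else c (update τ z 0)) =
      (if τ z = 1 then g τ * c (update τ z 0) else 0) +
      (if τ z = -1 then g τ * c (update τ z 0) else 0) := by
    intro τ
    rcases sign_cases (τ z) with h | h | h
    · rw [if_pos h, if_neg (by rw [h]; decide), if_neg (by rw [h]; decide)]; ring
    · rw [if_neg (by rw [h]; decide), if_pos h, if_neg (by rw [h]; decide)]; ring
    · rw [if_neg (by rw [h]; decide), if_neg (by rw [h]; decide), if_pos h]; ring
  rw [Finset.sum_congr rfl fun σ _ => e1 σ, Finset.sum_congr rfl fun τ _ => e2 τ,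
    Finset.sum_add_distrib, Finset.sum_add_distrib, h1, h2]

theorem sum_symm_zero {ι : Type*} [Fintype ι] [DecidableEq ι] (F : ι → ι → ZMod 2)
    (hs : ∀ a b, F a b = F b a) (h0 : ∀ a, F a a = 0) : ∑ a, ∑ b, F a b = 0 := by
  rw [← Finset.sum_product']
  refine Finset.sum_involution (fun p _ => p.swap) ?_ ?_ ?_ ?_
  · intro p _
    show F p.1 p.2 + F p.2 p.1 = 0
    rw [hs p.2 p.1]
    exact two_eq_zero' _
  · intro p _ hp hpp
    apply hp
    have : p.2 = p.1 := congrArg Prod.fst hpp
    rw [this]
    exact h0 _
  · intro p _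
    simp
  · intro p _
    rfl

theorem fac_fac (h : SV n → ZMod 2) (σ : SV n) : fac (fac h) σ = 0 := by
  have e : ∀ z, (if σ z = 0 then fac h (update σ z 1) + fac h (update σ z (-1)) else 0) =
      ∑ z', if σ z = 0 ∧ σ z' = 0 ∧ z ≠ z' then
        (h (update (update σ z 1) z' 1) + h (update (update σ z 1) z' (-1))) +
        (h (update (update σ z (-1)) z' 1) + h (update (update σ z (-1)) z' (-1))) else 0 := by
    intro z
    by_cases hz : σ z = 0
    · rw [if_pos hz]
      unfold fac
      rw [← Finset.sum_add_distrib]
      refine Finset.sum_congr rfl fun z' _ => ?_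
      by_cases hzz : z = z'
      · subst hzz
        rw [update_self, update_self, if_neg (by decide), if_neg (by decide), if_neg (by simp)]
        rfl
      · rw [update_of_ne (Ne.symm hzz), update_of_ne (Ne.symm hzz)]
        by_cases hz' : σ z' = 0
        · rw [if_pos hz', if_pos hz', if_pos ⟨hz, hz', hzz⟩]
        · rw [if_neg hz', if_neg hz', if_neg (fun q => hz' q.2.1)]
          rfl
    · rw [if_neg hz]
      symm
      exact Finset.sum_eq_zero fun z' _ => if_neg fun q => hz q.1
  unfold fac at e ⊢
  rw [Finset.sum_congr rfl fun z _ => e z]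
  refine sum_symm_zero _ (fun a b => ?_) (fun a => if_neg (by simp))
  by_cases hab : a = b
  · subst hab; rfl
  · by_cases h1 : σ a = 0 ∧ σ b = 0 ∧ a ≠ b
    · rw [if_pos h1, if_pos ⟨h1.2.1, h1.1, h1.2.2.symm⟩]
      rw [update_comm h1.2.2.symm 1 1, update_comm h1.2.2.symm 1 (-1),
        update_comm h1.2.2.symm (-1) 1, update_comm h1.2.2.symm (-1) (-1)]
      ring
    · rw [if_neg h1, if_neg fun q => h1 ⟨q.2.1, q.1, q.2.2.symm⟩]

/-- the number of alternating flags -/
def NN (sg : SV n → ZMod 2) : ℕ → SV n → ZMod 2
  | 0, _ => 1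
  | i + 1, σ => fac (fun τ => if sg τ = sg σ then 0 else NN sg i τ) σ

/-- the flag starts with the sign `+` -/
def aa (sg : SV n → ZMod 2) (i : ℕ) (τ : SV n) : ZMod 2 := if sg τ = (i : ZMod 2) then 1 else 0

theorem zmod2_cases (x : ZMod 2) : x = 0 ∨ x = 1 := by
  revert x; decide

theorem zmod2_ne {x y z : ZMod 2} (h : x ≠ y) : (z = x) ↔ ¬ (z = y) := by
  revert x y z; decide

theorem fac_add (g h : SV n → ZMod 2) (σ : SV n) :
    fac (fun τ => g τ + h τ) σ = fac g σ + fac h σ := by
  unfold fac
  rw [← Finset.sum_add_distrib]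
  refine Finset.sum_congr rfl fun z _ => ?_
  split_ifs
  · ring
  · ring

theorem NN_key (sg : SV n → ZMod 2) (i : ℕ) :
    (∀ σ, fac (NN sg i) σ = 0) ∧
    (∀ σ, NN sg (i + 1) σ = fac (fun τ => aa sg i τ * NN sg i τ) σ) := by
  induction i with
  | zero =>
    have hZ : ∀ σ, fac (NN sg 0) σ = 0 := by
      intro σ
      unfold fac
      refine Finset.sum_eq_zero fun z _ => ?_
      show (if σ z = 0 then (1 : ZMod 2) + 1 else 0) = 0
      split_ifs
      · decide
      · rfl
    refine ⟨hZ, fun σ => ?_⟩
    by_cases hs : sg σ = ((0 : ℕ) : ZMod 2)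
    · have e : ∀ τ, (if sg τ = sg σ then 0 else NN sg 0 τ) = NN sg 0 τ + aa sg 0 τ * NN sg 0 τ := by
        intro τ
        unfold aa
        rw [hs]
        split_ifs
        · rw [one_mul]; exact (two_eq_zero' _).symm
        · ring
      show fac (fun τ => if sg τ = sg σ then 0 else NN sg 0 τ) σ = _
      rw [funext e, fac_add, hZ, zero_add]
    · show fac (fun τ => if sg τ = sg σ then 0 else NN sg 0 τ) σ = _
      congr 1
      funext τ
      unfold aa
      by_cases h : sg τ = sg σ
      · rw [if_pos h, if_neg ((zmod2_ne hs).1 h), zero_mul]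
      · rw [if_neg h, if_pos ((zmod2_ne (Ne.symm hs)).2 h), one_mul]
  | succ i ih =>
    have hZ : ∀ σ, fac (NN sg (i + 1)) σ = 0 := by
      intro σ
      rw [funext ih.2]
      exact fac_fac _ _
    refine ⟨hZ, fun σ => ?_⟩
    by_cases hs : sg σ = ((i + 1 : ℕ) : ZMod 2)
    · have e : ∀ τ, (if sg τ = sg σ then 0 else NN sg (i + 1) τ) =
          NN sg (i + 1) τ + aa sg (i + 1) τ * NN sg (i + 1) τ := by
        intro τ
        unfold aa
        rw [hs]
        split_ifs
        · rw [one_mul]; exact (two_eq_zero' _).symm
        · ring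
      show fac (fun τ => if sg τ = sg σ then 0 else NN sg (i + 1) τ) σ = _
      rw [funext e, fac_add, hZ, zero_add]
    · show fac (fun τ => if sg τ = sg σ then 0 else NN sg (i + 1) τ) σ = _
      congr 1
      funext τ
      unfold aa
      by_cases h : sg τ = sg σ
      · rw [if_pos h, if_neg ((zmod2_ne hs).1 h), zero_mul]
      · rw [if_neg h, if_pos ((zmod2_ne (Ne.symm hs)).2 h), one_mul]

/-- A Tucker type lemma: no frame of dimension `m` in a complex `U` with a sign and a height. -/
theorem lemmaT {m : ℕ} (U : SV n → Prop) (hUneg : ∀ σ, U σ → U (-σ))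
    (hUf : ∀ σ z ε, ε ≠ 0 → U σ → σ z = 0 → U (update σ z ε))
    (sg : SV n → ZMod 2) (hsg : ∀ σ, U σ → sg (-σ) = sg σ + 1)
    (δ : SV n → ℕ)
    (hδ : ∀ σ z ε, ε ≠ 0 → U σ → σ z = 0 → sg (update σ z ε) ≠ sg σ →
      δ (update σ z ε) + 2 ≤ δ σ)
    (hδm : ∀ σ, U σ → δ σ < 2 * m)
    (c : SV n → ZMod 2) (hc : ∀ σ, dim σ ≤ m → c σ ≠ 0 → U σ)
    (hF1 : ∀ τ, dim τ < m → cof c τ = c τ + c (-τ))
    (hF2 : ∑ σ, (if dim σ = 0 then c σ else 0) = 1) : False := by
  -- symmetry of `NN`
  have hNs : ∀ i σ, U σ → NN sg i (-σ) = NN sg i σ := by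
    intro i
    induction i with
    | zero => intro σ _; rfl
    | succ i ih =>
      intro σ hσ
      show fac (fun τ => if sg τ = sg (-σ) then 0 else NN sg i τ) (-σ) =
        fac (fun τ => if sg τ = sg σ then 0 else NN sg i τ) σ
      unfold fac
      refine Finset.sum_congr rfl fun z _ => ?_
      by_cases hz : σ z = 0
      · have hz' : (-σ) z = 0 := by rw [Pi.neg_apply, hz]; rfl
        rw [if_pos hz, if_pos hz', update_neg, update_neg, neg_neg, add_comm]
        have h1 : ∀ ε : SignType, ε ≠ 0 →
            (if sg (-(update σ z ε)) = sg (-σ) then 0 else NN sg i (-(update σ z ε))) =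
            (if sg (update σ z ε) = sg σ then 0 else NN sg i (update σ z ε)) := by
          intro ε hε
          have hu := hUf σ z ε hε hσ hz
          rw [ih _ hu, hsg _ hu, hsg _ hσ]
          by_cases h : sg (update σ z ε) = sg σ
          · rw [if_pos h, if_pos (by rw [h])]
          · rw [if_neg h, if_neg fun q => h (add_right_cancel q)]
        exact congrArg₂ (· + ·) (h1 1 (by decide)) (h1 (-1) (by decide))
      · have hz' : ¬ (-σ) z = 0 := by
          rw [Pi.neg_apply]
          rcases sign_cases (σ z) with h | h | h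
          · exact absurd h hz
          · rw [h]; decide
          · rw [h]; decide
        rw [if_neg hz, if_neg hz']
  -- bound
  have hNb : ∀ i σ, U σ → NN sg i σ ≠ 0 → 2 * i ≤ δ σ := by
    intro i
    induction i with
    | zero => intro σ _ _; omega
    | succ i ih =>
      intro σ hσ hN
      have hN' : fac (fun τ => if sg τ = sg σ then 0 else NN sg i τ) σ ≠ 0 := hN
      unfold fac at hN'
      obtain ⟨z, _, hz⟩ := Finset.exists_ne_zero_of_sum_ne_zero hN'
      have hz0 : σ z = 0 := by
        by_contra h
        rw [if_neg h] at hz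
        exact hz rfl
      rw [if_pos hz0] at hz
      have : ∃ ε : SignType, ε ≠ 0 ∧
          (if sg (update σ z ε) = sg σ then 0 else NN sg i (update σ z ε)) ≠ 0 := by
        by_contra hcon
        push Not at hcon
        apply hz
        have h1 := hcon 1 (by decide)
        have h2 := hcon (-1) (by decide)
        exact (congrArg₂ (· + ·) h1 h2).trans (add_zero _)
      obtain ⟨ε, hε, hne⟩ := this
      have hs : sg (update σ z ε) ≠ sg σ := by
        intro h
        rw [if_pos h] at hne
        exact hne rfl
      rw [if_neg hs] at hne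
      have h1 := ih _ (hUf σ z ε hε hσ hz0) hne
      have h2 := hδ σ z ε hε hσ hz0 hs
      omega
  -- the invariant
  have hQ : ∀ i, i ≤ m → ∑ σ, (if dim σ = i then c σ * NN sg i σ else 0) = 1 := by
    intro i
    induction i with
    | zero =>
      intro _
      rw [← hF2]
      refine Finset.sum_congr rfl fun σ _ => ?_
      split_ifs
      · exact mul_one _
      · rfl
    | succ i ih =>
      intro hi
      rw [← ih (by omega)]
      have e1 : ∀ σ, (if dim σ = i + 1 then c σ * NN sg (i + 1) σ else 0) =
          (if dim σ = i + 1 then c σ else 0) * fac (fun τ => aa sg i τ * NN sg i τ) σ := by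
        intro σ
        rw [(NN_key sg i).2 σ]
        split_ifs
        · rfl
        · rw [zero_mul]
      rw [Finset.sum_congr rfl fun σ _ => e1 σ, duality]
      have e2 : ∀ τ, aa sg i τ * NN sg i τ * cof (fun σ => if dim σ = i + 1 then c σ else 0) τ =
          (if dim τ = i then aa sg i τ * NN sg i τ * c τ else 0) +
          (if dim τ = i then aa sg i τ * NN sg i τ * c (-τ) else 0) := by
        intro τ
        have e3 : cof (fun σ => if dim σ = i + 1 then c σ else 0) τ =
            if dim τ = i then cof c τ else 0 := by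
          unfold cof
          by_cases hd : dim τ = i
          · rw [if_pos hd]
            refine Finset.sum_congr rfl fun z _ => ?_
            by_cases hz : τ z = 0
            · rw [if_pos hz, if_pos hz]
            · rw [if_neg hz, if_neg hz]
              exact if_pos (by rw [dim_update_zero hz, hd])
          · rw [if_neg hd]
            refine Finset.sum_eq_zero fun z _ => ?_
            by_cases hz : τ z = 0
            · rw [if_pos hz]
            · rw [if_neg hz]
              exact if_neg (by rw [dim_update_zero hz]; omega)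
        rw [e3]
        by_cases hd : dim τ = i
        · rw [if_pos hd, if_pos hd, if_pos hd, hF1 τ (by omega)]
          ring
        · rw [if_neg hd, if_neg hd, if_neg hd]
          ring
      rw [Finset.sum_congr rfl fun τ _ => e2 τ, Finset.sum_add_distrib]
      have e4 : ∑ τ, (if dim τ = i then aa sg i τ * NN sg i τ * c (-τ) else 0) =
          ∑ τ, (if dim τ = i then aa sg i (-τ) * NN sg i (-τ) * c τ else 0) := by
        rw [← Equiv.sum_comp (Equiv.neg (SV n)) (fun τ =>
          if dim τ = i then aa sg i (-τ) * NN sg i (-τ) * c τ else 0)]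
        refine Finset.sum_congr rfl fun τ _ => ?_
        show _ = if dim (-τ) = i then aa sg i (-(-τ)) * NN sg i (-(-τ)) * c (-τ) else 0
        rw [dim_neg, neg_neg]
      rw [e4, ← Finset.sum_add_distrib]
      refine Finset.sum_congr rfl fun τ _ => ?_
      by_cases hd : dim τ = i
      · rw [if_pos hd, if_pos hd, if_pos hd]
        by_cases hcτ : c τ = 0
        · rw [hcτ]; ring
        · have hU := hc τ (by omega) hcτ
          rw [hNs i τ hU]
          have : aa sg i τ + aa sg i (-τ) = 1 := by
            unfold aa
            rw [hsg τ hU]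
            rcases zmod2_cases (sg τ) with h | h <;> rcases zmod2_cases ((i : ℕ) : ZMod 2) with h' | h' <;>
              rw [h, h'] <;> decide
          linear_combination c τ * NN sg i τ * this
      · rw [if_neg hd, if_neg hd, if_neg hd]
        rfl
  have h0 : ∑ σ, (if dim σ = m then c σ * NN sg m σ else 0) = 0 := by
    refine Finset.sum_eq_zero fun σ _ => ?_
    split_ifs with hd
    · by_contra hne
      have h1 : c σ ≠ 0 := left_ne_zero_of_mul hne
      have h2 : NN sg m σ ≠ 0 := right_ne_zero_of_mul hne
      have hU := hc σ (by omega) h1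
      have h3 := hNb m σ hU h2
      have h4 := hδm σ hU
      omega
    · rfl
  rw [hQ m le_rfl] at h0
  exact absurd h0 (by decide)

end Pool.Agent.SKS
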