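import Pool.Agent.SKS.B

/-! # The explicit frame: alternating sign vectors -/

namespace Pool.Agent.SKS

open Finset Function

/-- the nonzero entries alternate, starting with `ε` -/
def alt : (n : ℕ) → SignType → SV n → ZMod 2
  | 0, _, _ => 1
  | n + 1, ε, σ => if σ 0 = 0 then alt n ε (fun i => σ i.succ) else
      if σ 0 = ε then alt n (-ε) (fun i => σ i.succ) else 0

theorem alt_neg (n : ℕ) : ∀ (ε : SignType) (σ : SV n), alt n ε (-σ) = alt n (-ε) σ := by
  induction n with
  | zero => intro ε σ; rfl
  | succ n ih =>
    intro ε σ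
    unfold alt
    have h1 : (-σ) 0 = -(σ 0) := rfl
    have h2 : (fun i : Fin n => (-σ) i.succ) = -(fun i : Fin n => σ i.succ) := rfl
    rw [h1, h2, ih, ih]
    have e1 : (-(σ 0) = 0) ↔ (σ 0 = 0) := by
      rcases sign_cases (σ 0) with h | h | h <;> rw [h] <;> decide
    have e2 : (-(σ 0) = ε) ↔ (σ 0 = -ε) := by
      constructor
      · intro h; rw [← h, neg_neg]
      · intro h; rw [h, neg_neg]
    by_cases h0 : σ 0 = 0
    · rw [if_pos h0, if_pos (e1.2 h0)]
    · rw [if_neg h0, if_neg (fun q => h0 (e1.1 q))]
      by_cases h3 : σ 0 = -ε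
      · rw [if_pos h3, if_pos (e2.2 h3)]
      · rw [if_neg h3, if_neg (fun q => h3 (e2.1 q))]

theorem tail_update_zero {n : ℕ} (σ : SV (n + 1)) (a : SignType) :
    (fun i : Fin n => update σ 0 a i.succ) = fun i => σ i.succ := by
  funext i
  exact update_of_ne (Fin.succ_ne_zero i) _ _

theorem tail_update_succ {n : ℕ} (σ : SV (n + 1)) (z : Fin n) (a : SignType) :
    (fun i : Fin n => update σ z.succ a i.succ) = update (fun i : Fin n => σ i.succ) z a := by
  funext i
  by_cases h : i = z
  · subst h; rw [update_self, update_self]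
  · rw [update_of_ne h, update_of_ne (fun q => h (Fin.succ_injective _ q))]

theorem cof_alt (n : ℕ) : ∀ (ε : SignType), ε ≠ 0 → ∀ σ : SV n,
    cof (alt n ε) σ = alt n ε σ + alt n (-ε) σ := by
  induction n with
  | zero =>
    intro ε _ σ
    show (∑ z : Fin 0, _) = (1 : ZMod 2) + 1
    rw [Fin.sum_univ_zero]
    decide
  | succ n ih =>
    intro ε hε σ
    have hne : -ε ≠ 0 := by
      rcases sign_cases ε with h | h | h
      · exact absurd h hε
      · rw [h]; decide
      · rw [h]; decide
    have hee : ε ≠ -ε := by
      rcases sign_cases ε with h | h | h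
      · exact absurd h hε
      · rw [h]; decide
      · rw [h]; decide
    unfold cof
    rw [Fin.sum_univ_succ]
    have h1 : alt (n + 1) ε (update σ 0 0) = alt n ε (fun i => σ i.succ) := by
      rw [alt, if_pos (update_self _ _ _), tail_update_zero]
    have h2 : ∀ z : Fin n, alt (n + 1) ε (update σ z.succ 0) =
        if σ 0 = 0 then alt n ε (update (fun i => σ i.succ) z 0) else
          if σ 0 = ε then alt n (-ε) (update (fun i => σ i.succ) z 0) else 0 := by
      intro z
      rw [alt, update_of_ne (Fin.succ_ne_zero z).symm, tail_update_succ]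
    rw [h1]
    simp only [h2]
    by_cases h0 : σ 0 = 0
    · simp only [if_pos h0, zero_add]
      have := ih ε hε (fun i => σ i.succ)
      unfold cof at this
      rw [this, alt, alt, if_pos h0, if_pos h0]
    · by_cases h3 : σ 0 = ε
      · simp only [if_neg h0, if_pos h3]
        have := ih (-ε) hne (fun i => σ i.succ)
        unfold cof at this
        rw [this, alt, alt, if_neg h0, if_neg h0, if_pos h3, if_neg (by rw [h3]; exact hee),
          neg_neg, add_zero]
        linear_combination two_eq_zero' (alt n ε fun i => σ i.succ)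
      · have h4 : σ 0 = -ε := by
          rcases sign_cases (σ 0) with h | h | h
          · exact absurd h h0
          · rcases sign_cases ε with h' | h' | h'
            · exact absurd h' hε
            · rw [h, h'] at h3; exact absurd rfl h3
            · rw [h, h']; decide
          · rcases sign_cases ε with h' | h' | h'
            · exact absurd h' hε
            · rw [h, h']
            · rw [h, h'] at h3; exact absurd rfl h3
        simp only [if_neg h0, if_neg h3]
        rw [alt, alt, if_neg h0, if_neg h0, if_neg h3, if_pos h4, neg_neg]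
        simp

theorem card_filter_succ {n : ℕ} (σ : SV (n + 1)) (a : SignType) :
    (univ.filter (fun z => σ z = a)).card =
      (if σ 0 = a then 1 else 0) + (univ.filter (fun z : Fin n => σ z.succ = a)).card := by
  rw [Finset.card_filter, Finset.card_filter, Fin.sum_univ_succ]

theorem dim_cons {n : ℕ} (a : SignType) (t : SV n) :
    dim (Fin.cons a t : SV (n + 1)) = (if a = 0 then 1 else 0) + dim t := by
  unfold dim
  rw [card_filter_succ]
  simp only [Fin.cons_zero, Fin.cons_succ]

theorem alt_cons {n : ℕ} (ε a : SignType) (t : SV n) :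
    alt (n + 1) ε (Fin.cons a t : SV (n + 1)) =
      if a = 0 then alt n ε t else if a = ε then alt n (-ε) t else 0 := by
  rw [alt]
  simp only [Fin.cons_zero, Fin.cons_succ]

theorem sum_alt (n : ℕ) : ∀ (ε : SignType), ε ≠ 0 →
    ∑ σ : SV n, (if dim σ = 0 then alt n ε σ else 0) = 1 := by
  induction n with
  | zero =>
    intro ε _
    rw [Fintype.sum_unique]
    have : dim (default : SV 0) = 0 := by
      unfold dim
      simp
    exact (if_pos (by unfold dim; simp)).trans rfl
  | succ n ih =>
    intro ε hε
    have hne : -ε ≠ 0 := by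
      rcases sign_cases ε with h | h | h
      · exact absurd h hε
      · rw [h]; decide
      · rw [h]; decide
    rw [← Equiv.sum_comp (Fin.consEquiv (fun _ : Fin (n + 1) => SignType))]
    rw [Fintype.sum_prod_type]
    rw [Finset.sum_eq_single ε]
    · rw [← ih (-ε) hne]
      refine Finset.sum_congr rfl fun t _ => ?_
      show (if dim (Fin.cons ε t : SV (n + 1)) = 0 then alt (n + 1) ε (Fin.cons ε t) else 0) = _
      rw [dim_cons, alt_cons, if_neg hε, if_neg hε, if_pos rfl, zero_add]
    · intro a _ ha
      refine Finset.sum_eq_zero fun t _ => ?_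
      show (if dim (Fin.cons a t : SV (n + 1)) = 0 then alt (n + 1) ε (Fin.cons a t) else 0) = _
      rw [dim_cons, alt_cons]
      by_cases h0 : a = 0
      · rw [if_pos h0]
        exact if_neg (by omega)
      · rw [if_neg h0, if_neg h0, if_neg ha]
        simp
    · intro h; exact absurd (mem_univ _) h

theorem alt_count (n : ℕ) : ∀ (ε : SignType), ε ≠ 0 → ∀ σ : SV n, alt n ε σ ≠ 0 →
    (univ.filter (fun z => σ z = -ε)).card ≤ (univ.filter (fun z => σ z = ε)).card ∧
    (univ.filter (fun z => σ z = ε)).card ≤ (univ.filter (fun z => σ z = -ε)).card + 1 := by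
  induction n with
  | zero =>
    intro ε _ σ _
    simp
  | succ n ih =>
    intro ε hε σ hσ
    have hne : -ε ≠ 0 := by
      rcases sign_cases ε with h | h | h
      · exact absurd h hε
      · rw [h]; decide
      · rw [h]; decide
    have hee : ε ≠ -ε := by
      rcases sign_cases ε with h | h | h
      · exact absurd h hε
      · rw [h]; decide
      · rw [h]; decide
    rw [card_filter_succ, card_filter_succ]
    rw [alt] at hσ
    by_cases h0 : σ 0 = 0
    · rw [if_pos h0] at hσ
      have := ih ε hε _ hσ
      rw [if_neg (by rw [h0]; exact hne.symm), if_neg (by rw [h0]; exact hε.symm)]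
      omega
    · rw [if_neg h0] at hσ
      by_cases h3 : σ 0 = ε
      · rw [if_pos h3] at hσ
        have := ih (-ε) hne _ hσ
        rw [neg_neg] at this
        rw [if_neg (by rw [h3]; exact hee), if_pos h3]
        omega
      · rw [if_neg h3] at hσ
        exact absurd rfl hσ

theorem pos_add_neg_add_dim {n : ℕ} (σ : SV n) : (pos σ).card + (neg σ).card + dim σ = n := by
  unfold pos neg dim
  rw [Finset.card_filter, Finset.card_filter, Finset.card_filter, ← Finset.sum_add_distrib,
    ← Finset.sum_add_distrib]
  have : ∀ z : Fin n, ((if σ z = 1 then 1 else 0) + (if σ z = -1 then 1 else 0) +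
      (if σ z = 0 then 1 else 0) : ℕ) = 1 := by
    intro z
    rcases sign_cases (σ z) with h | h | h <;> rw [h] <;> decide
  rw [Finset.sum_congr rfl fun z _ => this z]
  simp

/-- the explicit frame -/
theorem exists_frame {n j m : ℕ} (h : 2 * j + m ≤ n) :
    ∃ c : SV n → ZMod 2, (∀ τ, cof c τ = c τ + c (-τ)) ∧
      (∑ σ, (if dim σ = 0 then c σ else 0) = 1) ∧
      ∀ σ, dim σ ≤ m → c σ ≠ 0 → j ≤ (pos σ).card ∧ j ≤ (neg σ).card := by
  refine ⟨alt n 1, fun τ => ?_, sum_alt n 1 (by decide), fun σ hd hc => ?_⟩
  · rw [cof_alt n 1 (by decide), alt_neg]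
  · have h1 := alt_count n 1 (by decide) σ hc
    have h2 := pos_add_neg_add_dim σ
    unfold pos neg at h2 ⊢
    omega

end Pool.Agent.SKS
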