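import Pool.Agent.SKS.A
import Pool.Agent.SKS.C

/-! # Pushing a frame into the union of the clopen intervals -/

namespace Pool.Agent.SKS

open Finset Function

variable {n : ℕ}

theorem pos_neg (σ : SV n) : pos (-σ) = neg σ := by
  ext z
  simp only [pos, neg, mem_filter, mem_univ, true_and, Pi.neg_apply]
  rcases sign_cases (σ z) with h | h | h <;> rw [h] <;> decide

theorem neg_neg' (σ : SV n) : neg (-σ) = pos σ := by
  rw [← pos_neg, _root_.neg_neg]

theorem mem_pos {σ : SV n} {z : Fin n} : z ∈ pos σ ↔ σ z = 1 := by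
  unfold pos; simp

theorem mem_neg {σ : SV n} {z : Fin n} : z ∈ neg σ ↔ σ z = -1 := by
  unfold neg; simp

theorem disj_pos_neg (σ : SV n) : Disjoint (pos σ) (neg σ) := by
  rw [disjoint_left]
  intro z h1 h2
  rw [mem_pos] at h1
  rw [mem_neg, h1] at h2
  exact absurd h2 (by decide)

theorem cof_cof (h : SV n → ZMod 2) (τ : SV n) : cof (cof h) τ = 0 := by
  have e : ∀ z, (if τ z = 0 then 0 else cof h (update τ z 0)) =
      ∑ z', if τ z ≠ 0 ∧ τ z' ≠ 0 ∧ z ≠ z' then h (update (update τ z 0) z' 0) else 0 := by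
    intro z
    by_cases hz : τ z = 0
    · rw [if_pos hz]
      symm
      exact Finset.sum_eq_zero fun z' _ => if_neg fun q => q.1 hz
    · rw [if_neg hz]
      unfold cof
      refine Finset.sum_congr rfl fun z' _ => ?_
      by_cases hzz : z = z'
      · subst hzz
        rw [update_self, if_pos rfl, if_neg (by simp)]
      · rw [update_of_ne (Ne.symm hzz)]
        by_cases hz' : τ z' = 0
        · rw [if_pos hz', if_neg (fun q => q.2.1 hz')]
        · rw [if_neg hz', if_pos ⟨hz, hz', hzz⟩]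
  unfold cof at e ⊢
  rw [Finset.sum_congr rfl fun z _ => e z]
  refine sum_symm_zero _ (fun a b => ?_) (fun a => if_neg (by simp))
  by_cases hab : a = b
  · subst hab; rfl
  · by_cases h1 : τ a ≠ 0 ∧ τ b ≠ 0 ∧ a ≠ b
    · rw [if_pos h1, if_pos ⟨h1.2.1, h1.1, h1.2.2.symm⟩]
      rw [update_comm h1.2.2.symm 0 0]
    · rw [if_neg h1, if_neg fun q => h1 ⟨q.2.1, q.1, q.2.2.symm⟩]

/-- the subset `K` is a vertex of the cube `σ` -/
def InC (σ : SV n) (K : Finset (Fin n)) : Prop := pos σ ⊆ K ∧ neg σ ⊆ Kᶜ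

theorem InC.neg {σ : SV n} {K : Finset (Fin n)} (h : InC σ K) : InC (-σ) Kᶜ := by
  refine ⟨?_, ?_⟩
  · rw [pos_neg]; exact h.2
  · rw [neg_neg', compl_compl]; exact h.1

theorem inC_neg_iff {σ : SV n} {K : Finset (Fin n)} : InC (-σ) K ↔ InC σ Kᶜ := by
  constructor
  · intro h
    have := h.neg
    rwa [_root_.neg_neg] at this
  · intro h
    have := h.neg
    rwa [compl_compl] at this

variable (Y : Sys n)

/-- `K` is the unique maximum of `f` on the cube `σ` -/
def IsTop (σ : SV n) (K : Finset (Fin n)) : Prop :=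
  InC σ K ∧ ∀ K', InC σ K' → K' ≠ K → Y.f K' < Y.f K

variable {Y}

theorem IsTop.unique {σ : SV n} {K K' : Finset (Fin n)} (h : IsTop Y σ K) (h' : IsTop Y σ K') :
    K = K' := by
  by_contra hne
  have h1 := h.2 K' h'.1 (Ne.symm hne)
  have h2 := h'.2 K h.1 hne
  omega

theorem IsTop.neg {σ : SV n} {K : Finset (Fin n)} (h : IsTop Y σ K) : IsTop Y (-σ) Kᶜ := by
  refine ⟨h.1.neg, fun K' hK' hne => ?_⟩
  rw [inC_neg_iff] at hK'
  have := h.2 _ hK' (fun q => hne (by rw [← q, compl_compl]))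
  rwa [Y.fcompl, ← Y.fcompl K] at this

theorem exists_top {σ : SV n} (h : (pos σ).Nonempty) : ∃ K, IsTop Y σ K := by
  classical
  have h0 : InC σ (pos σ) := ⟨Subset.rfl, fun z hz => by
    rw [mem_compl]
    exact fun q => disjoint_left.1 (disj_pos_neg σ) q hz⟩
  obtain ⟨K, hK, hmax⟩ := Finset.exists_max_image (univ.filter (fun K => InC σ K)) Y.f
    ⟨_, mem_filter.2 ⟨mem_univ _, h0⟩⟩
  rw [mem_filter] at hK
  refine ⟨K, hK.2, fun K' hK' hne => ?_⟩
  have h1 := hmax K' (mem_filter.2 ⟨mem_univ _, hK'⟩)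
  refine lt_of_le_of_ne h1 fun heq => ?_
  rcases Y.finj K K' heq.symm with h2 | h2
  · exact hne h2
  · obtain ⟨z, hz⟩ := h
    have h3 := hK.2.1 hz
    have h4 := hK'.1 hz
    rw [h2, mem_compl] at h4
    exact h4 h3

variable (Y)

open Classical in
/-- the top vertex of a cube -/
noncomputable def top (σ : SV n) : Finset (Fin n) :=
  if h : ∃ K, IsTop Y σ K then h.choose else ∅

variable {Y}

theorem top_isTop {σ : SV n} (h : ∃ K, IsTop Y σ K) : IsTop Y σ (top Y σ) := by
  unfold top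
  rw [dif_pos h]
  exact h.choose_spec

theorem top_eq {σ : SV n} {K : Finset (Fin n)} (h : IsTop Y σ K) : top Y σ = K :=
  (top_isTop ⟨K, h⟩).unique h

variable (Y)

/-- enough decided elements on both sides -/
def XX (j : ℕ) (σ : SV n) : Prop := j ≤ (pos σ).card ∧ j ≤ (neg σ).card

/-- the cube lies between two clopen sets -/
def UU (j : ℕ) (σ : SV n) : Prop := Y.Good j (pos σ) ∧ Y.Good j (neg σ)

variable {Y}

theorem XX.neg {j : ℕ} {σ : SV n} (h : XX j σ) : XX j (-σ) := by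
  refine ⟨?_, ?_⟩
  · rw [pos_neg]; exact h.2
  · rw [neg_neg']; exact h.1

theorem UU.neg {j : ℕ} {σ : SV n} (h : UU Y j σ) : UU Y j (-σ) := by
  refine ⟨?_, ?_⟩
  · rw [pos_neg]; exact h.2
  · rw [neg_neg']; exact h.1

theorem UU_neg_iff {j : ℕ} {σ : SV n} : UU Y j (-σ) ↔ UU Y j σ := by
  constructor
  · intro h
    have := h.neg
    rwa [_root_.neg_neg] at this
  · exact UU.neg

variable (Y)

/-- at the vertex `K` we toggle elements outside `K` -/
def ModeB (j m : ℕ) (K : Finset (Fin n)) : Prop :=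
  ∀ σ : SV n, XX j σ → ¬ UU Y j σ → dim σ ≤ m → IsTop Y σ K →
    (∃ u, u ∉ K ∧ Y.wt u (pos σ)) ∧ j < (neg σ).card

/-- the elements of `K` that want to leave -/
noncomputable def AA (K : Finset (Fin n)) : Finset (Fin n) := by
  classical exact K.filter (fun a => ¬ Y.wt a K)

/-- the elements outside `K` that want to join -/
noncomputable def BB (K : Finset (Fin n)) : Finset (Fin n) := by
  classical exact Kᶜ.filter (fun a => Y.wt a K)

variable {Y}

theorem mem_AA {K : Finset (Fin n)} {a : Fin n} : a ∈ AA Y K ↔ a ∈ K ∧ ¬ Y.wt a K := by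
  classical
  unfold AA
  rw [mem_filter]

theorem mem_BB {K : Finset (Fin n)} {a : Fin n} : a ∈ BB Y K ↔ a ∉ K ∧ Y.wt a K := by
  classical
  unfold BB
  rw [mem_filter, mem_compl]

theorem AA_compl (K : Finset (Fin n)) : AA Y Kᶜ = BB Y K := by
  ext a
  rw [mem_AA, mem_BB, mem_compl, Y.compl, not_not]

theorem BB_compl (K : Finset (Fin n)) : BB Y Kᶜ = AA Y K := by
  ext a
  rw [mem_AA, mem_BB, mem_compl, Y.compl, not_not]

theorem sub_AA {σ : SV n} {K : Finset (Fin n)} (h : IsTop Y σ K) : K \ pos σ ⊆ AA Y K := by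
  intro x hx
  rw [mem_sdiff] at hx
  rw [mem_AA]
  refine ⟨hx.1, fun hw => ?_⟩
  have h1 : InC σ (K.erase x) := by
    refine ⟨fun z hz => ?_, fun z hz => ?_⟩
    · refine mem_erase.2 ⟨fun q => ?_, h.1.1 hz⟩
      subst q; exact hx.2 hz
    · have := h.1.2 hz
      rw [mem_compl] at this ⊢
      exact fun q => this (mem_of_mem_erase q)
  have h2 := h.2 _ h1 (fun q => by
    have : x ∉ K := by rw [← q]; exact notMem_erase _ _
    exact this hx.1)
  have h3 := Y.fdec x (K.erase x) (notMem_erase _ _) ((Y.erase_iff _ _).2 hw)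
  rw [insert_erase hx.1] at h3
  omega

theorem sub_BB {σ : SV n} {K : Finset (Fin n)} (h : IsTop Y σ K) : Kᶜ \ neg σ ⊆ BB Y K := by
  have := sub_AA h.neg
  rw [pos_neg, AA_compl] at this
  exact this

theorem card_bounds {σ : SV n} {K : Finset (Fin n)} (h : IsTop Y σ K) :
    (K \ pos σ).card + (pos σ).card = K.card ∧
    (Kᶜ \ neg σ).card + (neg σ).card = Kᶜ.card ∧
    (K \ pos σ).card + (Kᶜ \ neg σ).card = dim σ ∧ K.card + Kᶜ.card = n := by
  have h1 : (K \ pos σ).card + (pos σ).card = K.card := card_sdiff_add_card_eq_card h.1.1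
  have h2 : (Kᶜ \ neg σ).card + (neg σ).card = Kᶜ.card := card_sdiff_add_card_eq_card h.1.2
  have h3 := pos_add_neg_add_dim σ
  have h4 : K.card + Kᶜ.card = n := by
    rw [card_add_card_compl, Fintype.card_fin]
  omega

theorem first {j : ℕ} (hj : ∀ M : Finset (Fin n), M.card = j → ¬ Y.Cl M) {σ : SV n}
    {K : Finset (Fin n)} (hX : XX j σ) (h : IsTop Y σ K) (hA : K.card ≤ (AA Y K).card + j) :
    ∃ u, u ∉ K ∧ Y.wt u (pos σ) := by
  have hb := card_bounds h
  obtain ⟨X', h1, h2, h3⟩ := exists_subsuperset_card_eq (sub_AA h) (n := K.card - j)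
    (by have := hX.1; omega) (by omega)
  have hXK : X' ⊆ K := h2.trans fun x hx => (mem_AA.1 hx).1
  have hM : (K \ X').card = j := by
    rw [card_sdiff_of_subset hXK, h3]
    have := hX.1
    omega
  have hne := hj _ hM
  unfold Sys.Cl at hne
  push Not at hne
  obtain ⟨u, hu, hw⟩ := hne
  refine ⟨u, fun huK => ?_, Y.mono (fun x hx => ?_) hw⟩
  · have huX : u ∈ X' := by
      by_contra hcon
      exact hu (mem_sdiff.2 ⟨huK, hcon⟩)
    exact (mem_AA.1 (h2 huX)).2 (Y.mono sdiff_subset hw)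
  · rw [mem_sdiff] at hx
    by_contra hcon
    exact hx.2 (h1 (mem_sdiff.2 ⟨hx.1, hcon⟩))

theorem modeB_of_one {j m : ℕ} (hj : ∀ M : Finset (Fin n), M.card = j → ¬ Y.Cl M)
    (hm : 2 * m + 2 * j < n) {K : Finset (Fin n)} (hA : K.card ≤ (AA Y K).card + j)
    (hB : (BB Y K).card + j < Kᶜ.card ∨ K.card ≤ Kᶜ.card) : ModeB Y j m K := by
  intro σ hX hU hd h
  refine ⟨first hj hX h hA, ?_⟩
  have hb := card_bounds h
  have h2 := card_le_card (sub_BB h)
  rcases hB with hB | hB <;> omega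

theorem modeB_of_three {j m : ℕ} {K : Finset (Fin n)} (hB : (BB Y K).card + j < Kᶜ.card)
    (hu : ∃ u, u ∉ K ∧ Y.wt u (K \ AA Y K)) : ModeB Y j m K := by
  intro σ hX hU hd h
  obtain ⟨u, hu, hw⟩ := hu
  refine ⟨⟨u, hu, Y.mono (fun x hx => ?_) hw⟩, ?_⟩
  · rw [mem_sdiff] at hx
    by_contra hcon
    exact hx.2 (sub_AA h (mem_sdiff.2 ⟨hx.1, hcon⟩))
  · have hb := card_bounds h
    have h2 := card_le_card (sub_BB h)
    omega

theorem good_of {j : ℕ} (hj : ∀ M : Finset (Fin n), M.card = j → ¬ Y.Cl M) {σ : SV n}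
    {K : Finset (Fin n)} (h : IsTop Y σ K) (hA : (AA Y K).card + j < K.card)
    (hu : ∀ u, u ∉ K → ¬ Y.wt u (K \ AA Y K)) : Y.Good j (pos σ) := by
  have h1 : Y.Cl (K \ AA Y K) := by
    intro u hu' hw
    by_cases huK : u ∈ K
    · have huA : u ∈ AA Y K := by
        by_contra hcon
        exact hu' (mem_sdiff.2 ⟨huK, hcon⟩)
      exact (mem_AA.1 huA).2 (Y.mono sdiff_subset hw)
    · exact hu u huK hw
  have h2 : j + 1 ≤ (K \ AA Y K).card := by
    rw [card_sdiff_of_subset (fun x hx => (mem_AA.1 hx).1)]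
    omega
  obtain ⟨C, hC, hCO, hc⟩ := Sys.shrink hj h1 h2
  refine ⟨C, hCO, hc, fun x hx => ?_⟩
  have := hC hx
  rw [mem_sdiff] at this
  by_contra hcon
  exact this.2 (sub_AA h (mem_sdiff.2 ⟨this.1, hcon⟩))

theorem dichotomy {j m : ℕ} (hj : ∀ M : Finset (Fin n), M.card = j → ¬ Y.Cl M)
    (hm : 2 * m + 2 * j < n) (K : Finset (Fin n)) : ModeB Y j m K ∨ ModeB Y j m Kᶜ := by
  have e1 : (AA Y Kᶜ).card = (BB Y K).card := by rw [AA_compl]
  have e2 : (BB Y Kᶜ).card = (AA Y K).card := by rw [BB_compl]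
  by_cases hA : K.card ≤ (AA Y K).card + j
  · by_cases hB : (BB Y K).card + j < Kᶜ.card
    · exact Or.inl (modeB_of_one hj hm hA (Or.inl hB))
    · rcases le_total K.card Kᶜ.card with h | h
      · exact Or.inl (modeB_of_one hj hm hA (Or.inr h))
      · refine Or.inr (modeB_of_one hj hm (by rw [e1]; omega) (Or.inr ?_))
        rw [compl_compl]; exact h
  · by_cases hB : (BB Y K).card + j < Kᶜ.card
    · by_cases h1 : ∃ u, u ∉ K ∧ Y.wt u (K \ AA Y K)
      · exact Or.inl (modeB_of_three hB h1)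
      · by_cases h2 : ∃ u, u ∉ Kᶜ ∧ Y.wt u (Kᶜ \ AA Y Kᶜ)
        · refine Or.inr (modeB_of_three ?_ h2)
          rw [compl_compl, e2]; omega
        · left
          intro σ hX hU hd h
          exfalso
          apply hU
          push Not at h1 h2
          refine ⟨good_of hj h (by omega) h1, ?_⟩
          have := good_of hj h.neg (by rw [e1]; omega) h2
          rwa [pos_neg] at this
    · refine Or.inr (modeB_of_one hj hm (by rw [e1]; omega) (Or.inl ?_))
      rw [compl_compl, e2]; omega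

end Pool.Agent.SKS
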