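import Pool.Agent.SKS.D

/-! # The removal step -/

namespace Pool.Agent.SKS

open Finset Function

variable {n : ℕ}

/-- an injective code of the subsets -/
noncomputable def key (K : Finset (Fin n)) : ℕ := (Fintype.equivFin (Finset (Fin n)) K).val

theorem key_inj {K K' : Finset (Fin n)} (h : key K = key K') : K = K' :=
  (Fintype.equivFin (Finset (Fin n))).injective (Fin.ext h)

theorem ne_compl_of_pos {K : Finset (Fin n)} (h : 0 < n) : K ≠ Kᶜ := by
  intro hK
  have z : Fin n := ⟨0, h⟩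
  by_cases hz : z ∈ K
  · have hz' := hz
    rw [hK, mem_compl] at hz'
    exact hz' hz
  · have hz' := hz
    rw [hK, mem_compl, not_not] at hz'
    exact hz hz'

variable (Y : Sys n)

/-- the side that is toggled at `K` is the outside -/
def Chosen (j m : ℕ) (K : Finset (Fin n)) : Prop :=
  ModeB Y j m K ∧ (¬ ModeB Y j m Kᶜ ∨ key K < key Kᶜ)

variable {Y}

theorem chosen_compl {j m : ℕ} (hn : 0 < n) {K : Finset (Fin n)}
    (hdi : ModeB Y j m K ∨ ModeB Y j m Kᶜ) : Chosen Y j m Kᶜ ↔ ¬ Chosen Y j m K := by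
  unfold Chosen
  rw [compl_compl]
  have hne : key K ≠ key Kᶜ := fun q => ne_compl_of_pos hn (key_inj q)
  constructor
  · rintro ⟨h1, h2⟩ ⟨h3, h4⟩
    rcases h2 with h2 | h2
    · exact h2 h3
    · rcases h4 with h4 | h4
      · exact h4 h1
      · omega
  · intro h
    by_cases h1 : ModeB Y j m K
    · have h2 : ¬ (¬ ModeB Y j m Kᶜ ∨ key K < key Kᶜ) := fun q => h ⟨h1, q⟩
      push Not at h2
      exact ⟨h2.1, Or.inr (by omega)⟩
    · rcases hdi with h3 | h3
      · exact absurd h3 h1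
      · exact ⟨h3, Or.inl h1⟩

variable (Y)

open Classical in
/-- the third component of the rank -/
noncomputable def third (K : Finset (Fin n)) (σ : SV n) : ℕ :=
  (univ.filter (fun z => σ z = 0 ∧ z ∉ K ∧
    ¬ ∃ h : ∃ u, u ∉ K ∧ Y.wt u (pos σ), z = h.choose)).card

/-- the rank, if the top vertex is chosen -/
noncomputable def rr (K : Finset (Fin n)) (σ : SV n) : ℕ :=
  Y.f K * ((n + 1) * (n + 1)) + (K \ pos σ).card * (n + 1) + third Y K σ

open Classical in
/-- the rank -/
noncomputable def RR (j m : ℕ) (σ : SV n) : ℕ :=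
  if Chosen Y j m (top Y σ) then rr Y (top Y σ) σ else rr Y (top Y (-σ)) (-σ)

variable {Y}

theorem third_le (K : Finset (Fin n)) (σ : SV n) : third Y K σ ≤ n := by
  classical
  unfold third
  exact (card_le_univ _).trans (by rw [Fintype.card_fin])

theorem sd_le (K : Finset (Fin n)) (S : Finset (Fin n)) : (K \ S).card ≤ n :=
  (card_le_univ _).trans (by rw [Fintype.card_fin])

theorem rr_lt_of_f {K K' : Finset (Fin n)} {σ σ' : SV n} (h : Y.f K < Y.f K') :
    rr Y K σ < rr Y K' σ' := by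
  unfold rr
  have h1 := third_le (Y := Y) K σ
  have h2 := sd_le K (pos σ)
  have h3 : (Y.f K + 1) * ((n + 1) * (n + 1)) ≤ Y.f K' * ((n + 1) * (n + 1)) :=
    Nat.mul_le_mul_right _ h
  nlinarith

theorem rr_lt_of_sd {K : Finset (Fin n)} {σ σ' : SV n}
    (h : (K \ pos σ).card < (K \ pos σ').card) : rr Y K σ < rr Y K σ' := by
  unfold rr
  have h1 := third_le (Y := Y) K σ
  have h3 : ((K \ pos σ).card + 1) * (n + 1) ≤ (K \ pos σ').card * (n + 1) :=
    Nat.mul_le_mul_right _ h
  nlinarith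

theorem rr_lt_of_third {K : Finset (Fin n)} {σ σ' : SV n}
    (h : pos σ = pos σ') (h' : third Y K σ < third Y K σ') : rr Y K σ < rr Y K σ' := by
  unfold rr
  rw [h]
  omega

theorem RR_neg {j m : ℕ} (hn : 0 < n) (hdi : ∀ K, ModeB Y j m K ∨ ModeB Y j m Kᶜ) {σ : SV n}
    (h : ∃ K, IsTop Y σ K) : RR Y j m (-σ) = RR Y j m σ := by
  have h1 := top_isTop h
  have h2 : top Y (-σ) = (top Y σ)ᶜ := top_eq h1.neg
  unfold RR
  rw [_root_.neg_neg]
  by_cases hc : Chosen Y j m (top Y σ)
  · rw [if_pos hc, if_neg]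
    rw [h2, chosen_compl hn (hdi _), not_not]
    exact hc
  · rw [if_neg hc, if_pos]
    rw [h2, chosen_compl hn (hdi _)]
    exact hc

/-- the rank of a cube with top vertex `K` is more than the rank of all cubes with lower top -/
theorem RR_gt_of_f {j m : ℕ} {K K' : Finset (Fin n)} {σ σ' : SV n} (h : IsTop Y σ' K')
    (hf : Y.f K < Y.f K') : rr Y K σ < RR Y j m σ' := by
  unfold RR
  rw [top_eq h, top_eq h.neg]
  split_ifs
  · exact rr_lt_of_f hf
  · exact rr_lt_of_f (by rw [Y.fcompl]; exact hf)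

theorem RR_lt_of_f {j m : ℕ} {K K' : Finset (Fin n)} {σ σ' : SV n} (h : IsTop Y σ' K')
    (hf : Y.f K' < Y.f K) : RR Y j m σ' < rr Y K σ := by
  unfold RR
  rw [top_eq h, top_eq h.neg]
  split_ifs
  · exact rr_lt_of_f hf
  · exact rr_lt_of_f (by rw [Y.fcompl]; exact hf)

theorem RR_of_chosen {j m : ℕ} {K : Finset (Fin n)} {σ : SV n} (h : IsTop Y σ K)
    (hc : Chosen Y j m K) : RR Y j m σ = rr Y K σ := by
  unfold RR
  rw [top_eq h, if_pos hc]

theorem inC_of_update {σ : SV n} {z : Fin n} {ε : SignType} (hz : σ z = 0)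
    {K : Finset (Fin n)} (h : InC (update σ z ε) K) : InC σ K := by
  refine ⟨fun x hx => h.1 ?_, fun x hx => h.2 ?_⟩
  · rw [mem_pos] at hx ⊢
    by_cases hxz : x = z
    · subst hxz; rw [hz] at hx; exact absurd hx (by decide)
    · rw [update_of_ne hxz]; exact hx
  · rw [mem_neg] at hx ⊢
    by_cases hxz : x = z
    · subst hxz; rw [hz] at hx; exact absurd hx (by decide)
    · rw [update_of_ne hxz]; exact hx

theorem inC_update_one {σ : SV n} {z : Fin n} {K : Finset (Fin n)} (h : InC σ K) (hz : z ∈ K) :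
    InC (update σ z 1) K := by
  refine ⟨fun x hx => ?_, fun x hx => ?_⟩
  · by_cases hxz : x = z
    · subst hxz; exact hz
    · rw [mem_pos, update_of_ne hxz, ← mem_pos] at hx
      exact h.1 hx
  · by_cases hxz : x = z
    · subst hxz
      rw [mem_neg, update_self] at hx
      exact absurd hx (by decide)
    · rw [mem_neg, update_of_ne hxz, ← mem_neg] at hx
      exact h.2 hx

theorem inC_update_neg {σ : SV n} {z : Fin n} {K : Finset (Fin n)} (h : InC σ K) (hz : z ∉ K) :
    InC (update σ z (-1)) K := by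
  refine ⟨fun x hx => ?_, fun x hx => ?_⟩
  · by_cases hxz : x = z
    · subst hxz
      rw [mem_pos, update_self] at hx
      exact absurd hx (by decide)
    · rw [mem_pos, update_of_ne hxz, ← mem_pos] at hx
      exact h.1 hx
  · by_cases hxz : x = z
    · subst hxz; exact mem_compl.2 hz
    · rw [mem_neg, update_of_ne hxz, ← mem_neg] at hx
      exact h.2 hx

theorem UU_update {j : ℕ} {σ : SV n} {z : Fin n} {ε : SignType} (hz : σ z = 0)
    (h : UU Y j σ) : UU Y j (update σ z ε) := by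
  refine ⟨h.1.mono fun x hx => ?_, h.2.mono fun x hx => ?_⟩
  · rw [mem_pos] at hx ⊢
    by_cases hxz : x = z
    · subst hxz; rw [hz] at hx; exact absurd hx (by decide)
    · rw [update_of_ne hxz]; exact hx
  · rw [mem_neg] at hx ⊢
    by_cases hxz : x = z
    · subst hxz; rw [hz] at hx; exact absurd hx (by decide)
    · rw [update_of_ne hxz]; exact hx

theorem weight_lt {ι : Type*} [DecidableEq ι] {s s' : Finset ι} {R : ι → ℕ} {x : ι} (hx : x ∈ s)
    (h : ∀ y ∈ s', y ∈ s.erase x ∨ R y < R x) {Mo : ℕ} (hMo : s'.card < Mo) :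
    ∑ y ∈ s', Mo ^ R y < ∑ y ∈ s, Mo ^ R y := by
  have h1 : ∑ y ∈ s', Mo ^ R y ≤ ∑ y ∈ s.erase x, Mo ^ R y +
      ∑ y ∈ s'.filter (fun y => R y < R x), Mo ^ R y := by
    rw [← Finset.sum_filter_add_sum_filter_not s' (fun y => R y < R x), add_comm]
    refine Nat.add_le_add_right ?_ _
    refine Finset.sum_le_sum_of_subset fun y hy => ?_
    rw [mem_filter] at hy
    rcases h y hy.1 with h | h
    · exact h
    · exact absurd h hy.2
  have h2 : Mo * ∑ y ∈ s'.filter (fun y => R y < R x), Mo ^ R y ≤ s'.card * Mo ^ R x := by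
    rw [Finset.mul_sum]
    calc ∑ y ∈ s'.filter (fun y => R y < R x), Mo * Mo ^ R y
        ≤ ∑ y ∈ s'.filter (fun y => R y < R x), Mo ^ R x := by
          refine Finset.sum_le_sum fun y hy => ?_
          rw [mem_filter] at hy
          rw [← pow_succ']
          exact Nat.pow_le_pow_right (by omega) hy.2
      _ = (s'.filter (fun y => R y < R x)).card * Mo ^ R x := by
          rw [Finset.sum_const, smul_eq_mul]
      _ ≤ s'.card * Mo ^ R x := Nat.mul_le_mul_right _ (card_filter_le _ _)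
  have h3 : s'.card * Mo ^ R x < Mo * Mo ^ R x :=
    Nat.mul_lt_mul_of_pos_right hMo (Nat.pow_pos (by omega))
  have h4 : ∑ y ∈ s'.filter (fun y => R y < R x), Mo ^ R y < Mo ^ R x :=
    Nat.lt_of_mul_lt_mul_left (lt_of_le_of_lt h2 h3)
  have h5 : ∑ y ∈ s.erase x, Mo ^ R y + Mo ^ R x = ∑ y ∈ s, Mo ^ R y :=
    Finset.sum_erase_add _ _ hx
  omega

/-- the boundary of a cube, as a chain -/
noncomputable def bd (σ : SV n) : SV n → ZMod 2 := cof (Pi.single σ 1)

theorem bd_ne {σ κ : SV n} (h : bd σ κ ≠ 0) :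
    ∃ z, κ z ≠ 0 ∧ σ z = 0 ∧ κ = update σ z (κ z) := by
  unfold bd cof at h
  obtain ⟨z, _, hz⟩ := Finset.exists_ne_zero_of_sum_ne_zero h
  by_cases h0 : κ z = 0
  · rw [if_pos h0] at hz; exact absurd rfl hz
  · rw [if_neg h0] at hz
    have h1 : update κ z 0 = σ := by
      by_contra hne
      exact hz (Pi.single_eq_of_ne hne _)
    refine ⟨z, h0, by rw [← h1, update_self], ?_⟩
    rw [← h1, update_idem, update_eq_self]

theorem bd_neg (σ κ : SV n) : bd σ (-κ) = bd (-σ) κ := by
  unfold bd cof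
  refine Finset.sum_congr rfl fun z _ => ?_
  have e1 : ((-κ) z = 0) ↔ (κ z = 0) := by
    rw [Pi.neg_apply]
    rcases sign_cases (κ z) with h | h | h <;> rw [h] <;> decide
  by_cases h0 : κ z = 0
  · rw [if_pos h0, if_pos (e1.2 h0)]
  · rw [if_neg h0, if_neg (fun q => h0 (e1.1 q)), update_neg]
    have e2 : (-(0 : SignType)) = 0 := rfl
    rw [e2]
    by_cases h1 : update κ z 0 = -σ
    · rw [h1, _root_.neg_neg, Pi.single_eq_same, Pi.single_eq_same]
    · rw [Pi.single_eq_of_ne h1, Pi.single_eq_of_ne]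
      intro q
      apply h1
      rw [← q, _root_.neg_neg]

theorem sum_bd (σ : SV n) : ∑ κ, (if dim κ = 0 then bd σ κ else 0) = 0 := by
  have e : ∀ κ, (if dim κ = 0 then bd σ κ else 0) =
      (if dim κ = 0 then (1 : ZMod 2) else 0) * cof (Pi.single σ 1) κ := by
    intro κ
    split_ifs
    · rw [one_mul]; rfl
    · rw [zero_mul]
  rw [Finset.sum_congr rfl fun κ _ => e κ, ← duality]
  refine Finset.sum_eq_zero fun τ _ => ?_
  have : fac (fun κ => if dim κ = 0 then (1 : ZMod 2) else 0) τ = 0 := by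
    unfold fac
    refine Finset.sum_eq_zero fun z _ => ?_
    by_cases h0 : τ z = 0
    · rw [if_pos h0]
      have h1 := dim_update_of h0 (ε := 1) (by decide)
      have h2 := dim_update_of h0 (ε := -1) (by decide)
      have h3 : dim (update τ z 1) = dim (update τ z (-1)) := by omega
      show (if dim (update τ z 1) = 0 then (1 : ZMod 2) else 0) +
        (if dim (update τ z (-1)) = 0 then (1 : ZMod 2) else 0) = 0
      rw [h3]
      exact two_eq_zero' _
    · rw [if_neg h0]
  rw [this, mul_zero]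

end Pool.Agent.SKS
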