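import Pool.Agent.SKS.E

/-! # Pushing frames -/

namespace Pool.Agent.SKS

open Finset Function

variable {n : ℕ} {Y : Sys n}

theorem third_eq {K : Finset (Fin n)} {σ : SV n} {S : Finset (Fin n)} (hS : pos σ = S)
    (h : ∃ u, u ∉ K ∧ Y.wt u S) :
    third Y K σ = (univ.filter (fun z => σ z = 0 ∧ z ∉ K ∧ z ≠ h.choose)).card := by
  classical
  subst hS
  unfold third
  congr 1
  ext z
  simp only [mem_filter, mem_univ, true_and, ne_eq, and_congr_right_iff]
  intro _ _
  constructor
  · intro h1 h2; exact h1 ⟨h, h2⟩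
  · rintro h1 ⟨_, h2⟩; exact h1 h2

theorem pos_update_zero_neg {σ : SV n} {z : Fin n} (hz : σ z = -1) :
    pos (update σ z 0) = pos σ := by
  ext x
  rw [mem_pos, mem_pos]
  by_cases hx : x = z
  · subst hx; rw [update_self, hz]; decide
  · rw [update_of_ne hx]

theorem XX_update {j : ℕ} {σ : SV n} {z : Fin n} {ε : SignType} (hz : σ z = 0)
    (h : XX j σ) : XX j (update σ z ε) := by
  refine ⟨h.1.trans (card_le_card fun x hx => ?_), h.2.trans (card_le_card fun x hx => ?_)⟩
  · rw [mem_pos] at hx ⊢
    by_cases hxz : x = z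
    · subst hxz; rw [hz] at hx; exact absurd hx (by decide)
    · rw [update_of_ne hxz]; exact hx
  · rw [mem_neg] at hx ⊢
    by_cases hxz : x = z
    · subst hxz; rw [hz] at hx; exact absurd hx (by decide)
    · rw [update_of_ne hxz]; exact hx

theorem pos_nonempty {j : ℕ} (hj1 : 1 ≤ j) {σ : SV n} (h : XX j σ) : (pos σ).Nonempty := by
  rw [← card_pos]; have := h.1; omega

theorem pair_facts {j m : ℕ} (hj1 : 1 ≤ j) {σ' : SV n} {K : Finset (Fin n)} (hX : XX j σ')
    (hU : ¬ UU Y j σ') (hd : dim σ' ≤ m) (hK : IsTop Y σ' K) (hc : Chosen Y j m K) :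
    ∃ (τ σ : SV n) (u : Fin n), τ u = -1 ∧ σ = update τ u 0 ∧ (σ' = τ ∨ σ' = σ) ∧
      IsTop Y τ K ∧ IsTop Y σ K ∧ ¬ UU Y j τ ∧ ¬ UU Y j σ ∧ XX j τ ∧ XX j σ ∧ dim τ ≤ m ∧
      rr Y K τ = rr Y K σ' ∧ rr Y K σ = rr Y K σ' ∧
      (∀ z, z ≠ u → τ z ≠ 0 → XX j (update τ z 0) →
        rr Y K σ' < RR Y j m (update τ z 0)) ∧
      (∀ z ε, ε ≠ 0 → σ z = 0 → update σ z ε ≠ τ →
        RR Y j m (update σ z ε) < rr Y K σ') := by
  have hB := hc.1
  obtain ⟨hu, hneg⟩ := hB σ' hX hU hd hK
  set u := hu.choose with hudef
  have hu1 : u ∉ K := hu.choose_spec.1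
  have hu2 : Y.wt u (pos σ') := hu.choose_spec.2
  have hu3 : σ' u ≠ 1 := fun q => hu1 (hK.1.1 (mem_pos.2 q))
  -- the pair
  have hcase : σ' u = 0 ∨ σ' u = -1 := by
    rcases sign_cases (σ' u) with h | h | h
    · exact Or.inl h
    · exact absurd h hu3
    · exact Or.inr h
  obtain ⟨τ, hτ⟩ : ∃ τ : SV n, τ = update σ' u (-1) := ⟨_, rfl⟩
  obtain ⟨σ, hσ⟩ : ∃ σ : SV n, σ = update σ' u 0 := ⟨_, rfl⟩
  have hτu : τ u = -1 := by rw [hτ, update_self]
  have hσu : σ u = 0 := by rw [hσ, update_self]
  have hστ : σ = update τ u 0 := by rw [hσ, hτ, update_idem]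
  have hτσ : τ = update σ u (-1) := by rw [hσ, hτ, update_idem]
  have hpair : σ' = τ ∨ σ' = σ := by
    rcases hcase with h | h
    · right; rw [hσ, ← h, update_eq_self]
    · left; rw [hτ, ← h, update_eq_self]
  have hpos' : ∀ ε : SignType, ε ≠ 1 → pos (update σ' u ε) = pos σ' := by
    intro ε hε
    ext x
    rw [mem_pos, mem_pos]
    by_cases hx : x = u
    · rw [hx, update_self]
      exact ⟨fun q => absurd q hε, fun q => absurd q hu3⟩
    · rw [update_of_ne hx]
  have hposτ : pos τ = pos σ' := by rw [hτ]; exact hpos' _ (by decide)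
  have hposσ : pos σ = pos σ' := by rw [hσ]; exact hpos' _ (by decide)
  have hnegτ : neg τ = insert u (neg σ) := by
    ext x
    rw [mem_neg, mem_insert, mem_neg, hστ]
    by_cases hx : x = u
    · subst hx; rw [hτu]; simp
    · rw [update_of_ne hx]; simp [hx]
  have hunegσ : u ∉ neg σ := by rw [mem_neg, hσu]; decide
  have hnegcard : (neg τ).card = (neg σ).card + 1 := by
    rw [hnegτ, card_insert_of_notMem hunegσ]
  -- top vertices
  have hInσ : ∀ K', InC τ K' → InC σ K' := fun K' h => inC_of_update hσu (hτσ ▸ h)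
  have htopσ : IsTop Y σ K := by
    rcases hpair with h | h
    · -- σ' = τ
      rw [h] at hK
      refine ⟨hInσ K hK.1, fun K' hK' hne => ?_⟩
      by_cases huK : u ∈ K'
      · have h1 : InC τ (K'.erase u) := by
          refine ⟨fun x hx => ?_, fun x hx => ?_⟩
          · have hx' : x ∈ pos σ := by rw [hposσ, ← hposτ]; exact hx
            refine mem_erase.2 ⟨fun q => ?_, hK'.1 hx'⟩
            subst q
            rw [mem_pos, hτu] at hx
            exact absurd hx (by decide)
          · rw [mem_compl, mem_erase]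
            rintro ⟨h2, h3⟩
            rw [hnegτ, mem_insert] at hx
            rcases hx with hx | hx
            · exact h2 hx
            · exact (mem_compl.1 (hK'.2 hx)) h3
        have h2 : Y.wt u (K'.erase u) := by
          refine Y.mono (fun x hx => ?_) hu2
          rw [← hposτ] at hx
          exact h1.1 hx
        have h3 := Y.fdec u (K'.erase u) (notMem_erase _ _) h2
        rw [insert_erase huK] at h3
        by_cases h4 : K'.erase u = K
        · rw [h4] at h3; exact h3
        · exact h3.trans (hK.2 _ h1 h4)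
      · refine hK.2 K' ?_ hne
        rw [hτσ]
        exact inC_update_neg hK' huK
    · rw [← h]; exact hK
  have htopτ : IsTop Y τ K := by
    refine ⟨?_, fun K' hK' hne => htopσ.2 K' (hInσ K' hK') hne⟩
    rw [hτσ]
    exact inC_update_neg htopσ.1 hu1
  -- membership in U
  have hUτσ : UU Y j τ → UU Y j σ := by
    rintro ⟨h1, D, hD1, hD2, hD3⟩
    refine ⟨by rw [hposσ, ← hposτ]; exact h1, D, hD1, hD2, fun x hx => ?_⟩
    have hx' := hD3 hx
    rw [hnegτ, mem_insert] at hx'
    rcases hx' with hx' | hx'
    · exfalso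
      rw [hx'] at hx
      have h2 : Y.wt u Dᶜ := by
        refine Y.mono (fun y hy => ?_) hu2
        rw [mem_compl]
        intro hyD
        rw [← hposτ] at hy
        exact disjoint_left.1 (disj_pos_neg τ) hy (hD3 hyD)
      exact (Y.compl _ _).1 h2 (hD1.2 u hx)
    · exact hx'
  have hUστ : UU Y j σ → UU Y j τ := fun h => by rw [hτσ]; exact UU_update hσu h
  have hUτ : ¬ UU Y j τ := by
    rcases hpair with h | h
    · rw [← h]; exact hU
    · intro q; apply hU; rw [h]; exact hUτσ q
  have hUσ : ¬ UU Y j σ := fun q => hUτ (hUστ q)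
  have hXτ : XX j τ := by
    rcases hpair with h | h
    · rw [← h]; exact hX
    · rw [h] at hX
      rw [hτσ]
      exact XX_update hσu hX
  have hXσ : XX j σ := by
    refine ⟨by rw [hposσ, ← hposτ]; exact hXτ.1, ?_⟩
    rcases hpair with h | h
    · rw [h] at hneg; omega
    · rw [← h]; exact hX.2
  have hdστ : dim σ = dim τ + 1 := by
    rw [hστ]; exact dim_update_zero (by rw [hτu]; decide)
  have hdτ : dim τ ≤ m := by
    rcases hpair with h | h
    · rw [← h]; exact hd
    · rw [h] at hd; omega
  have hthird : third Y K τ = third Y K σ := by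
    rw [third_eq hposτ hu, third_eq hposσ hu]
    congr 1
    ext z
    simp only [mem_filter, mem_univ, true_and]
    by_cases hz : z = u
    · constructor
      · rintro ⟨_, _, h3⟩; exact absurd hz h3
      · rintro ⟨_, _, h3⟩; exact absurd hz h3
    · rw [hστ, update_of_ne hz]
  have hrr : rr Y K τ = rr Y K σ := by
    unfold rr
    rw [hthird, hposτ, hposσ]
  have hrrτ : rr Y K τ = rr Y K σ' := by
    rcases hpair with h | h
    · rw [h]
    · rw [h, hrr]
  have hrrσ : rr Y K σ = rr Y K σ' := by rw [← hrr, hrrτ]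
  refine ⟨τ, σ, u, hτu, hστ, hpair, htopτ, htopσ, hUτ, hUσ, hXτ, hXσ, hdτ, hrrτ, hrrσ, ?_, ?_⟩
  · intro z hzu hz0 hXω
    rw [← hrrτ]
    obtain ⟨K', hK'⟩ := exists_top (Y := Y) (pos_nonempty hj1 hXω)
    have h0 : update τ z 0 z = 0 := update_self _ _ _
    have h1 : update (update τ z 0) z (τ z) = τ := by rw [update_idem, update_eq_self]
    have hKω : InC (update τ z 0) K := inC_of_update h0 (by rw [h1]; exact htopτ.1)
    by_cases hKK : K' = K
    · subst hKK
      rw [RR_of_chosen hK' hc]
      rcases sign_cases (τ z) with h | h | h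
      · exact absurd h hz0
      · refine rr_lt_of_sd (card_lt_card ?_)
        have hzK : z ∈ K' := htopτ.1.1 (mem_pos.2 h)
        rw [ssubset_iff_of_subset]
        · refine ⟨z, mem_sdiff.2 ⟨hzK, ?_⟩, ?_⟩
          · rw [mem_pos, update_self]; decide
          · rw [mem_sdiff, mem_pos]
            exact fun q => q.2 h
        · intro x hx
          rw [mem_sdiff] at hx ⊢
          refine ⟨hx.1, fun q => hx.2 ?_⟩
          rw [mem_pos] at q ⊢
          by_cases hxz : x = z
          · subst hxz; exact h
          · rwa [update_of_ne hxz] at q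
      · have hp : pos (update τ z 0) = pos τ := pos_update_zero_neg h
        refine rr_lt_of_third hp.symm ?_
        rw [third_eq hposτ hu, third_eq (hp.trans hposτ) hu]
        refine card_lt_card ?_
        have hzK : z ∉ K' := mem_compl.1 (htopτ.1.2 (mem_neg.2 h))
        rw [ssubset_iff_of_subset]
        · refine ⟨z, ?_, ?_⟩
          · simp only [mem_filter, mem_univ, true_and, update_self]
            exact ⟨hzK, hzu⟩
          · simp only [mem_filter, mem_univ, true_and]
            exact fun q => hz0 q.1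
        · intro x hx
          simp only [mem_filter, mem_univ, true_and] at hx ⊢
          refine ⟨?_, hx.2⟩
          by_cases hxz : x = z
          · subst hxz; exact update_self _ _ _
          · rw [update_of_ne hxz]; exact hx.1
    · exact RR_gt_of_f hK' (hK'.2 K hKω (Ne.symm hKK))
  · intro z ε hε hz0 hne
    rw [← hrrσ]
    have hXκ : XX j (update σ z ε) := XX_update hz0 hXσ
    obtain ⟨K', hK'⟩ := exists_top (Y := Y) (pos_nonempty hj1 hXκ)
    have hKσ : InC σ K' := inC_of_update hz0 hK'.1
    by_cases hKK : K' = K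
    · subst hKK
      rw [RR_of_chosen hK' hc]
      rcases sign_cases ε with h | h | h
      · exact absurd h hε
      · subst h
        refine rr_lt_of_sd (card_lt_card ?_)
        have hzK : z ∈ K' := hK'.1.1 (by rw [mem_pos, update_self])
        rw [ssubset_iff_of_subset]
        · refine ⟨z, mem_sdiff.2 ⟨hzK, ?_⟩, ?_⟩
          · rw [mem_pos, hz0]; decide
          · rw [mem_sdiff, mem_pos, update_self]
            exact fun q => q.2 rfl
        · intro x hx
          rw [mem_sdiff] at hx ⊢
          refine ⟨hx.1, fun q => hx.2 ?_⟩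
          rw [mem_pos] at q ⊢
          by_cases hxz : x = z
          · subst hxz; exact update_self _ _ _
          · rw [update_of_ne hxz]; exact q
      · subst h
        have hzu : z ≠ u := by
          intro q
          apply hne
          rw [q, ← hτσ]
        have hp : pos (update σ z (-1)) = pos σ := by
          ext x
          rw [mem_pos, mem_pos]
          by_cases hx : x = z
          · subst hx; rw [update_self, hz0]; decide
          · rw [update_of_ne hx]
        refine rr_lt_of_third hp ?_
        rw [third_eq hposσ hu, third_eq (hp.trans hposσ) hu]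
        refine card_lt_card ?_
        have hzK : z ∉ K' := mem_compl.1 (hK'.1.2 (by rw [mem_neg, update_self]))
        rw [ssubset_iff_of_subset]
        · refine ⟨z, ?_, ?_⟩
          · simp only [mem_filter, mem_univ, true_and]
            exact ⟨hz0, hzK, hzu⟩
          · simp only [mem_filter, mem_univ, true_and, update_self]
            exact fun q => absurd q.1 (by decide)
        · intro x hx
          simp only [mem_filter, mem_univ, true_and] at hx ⊢
          refine ⟨?_, hx.2⟩
          by_cases hxz : x = z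
          · subst hxz; exact hz0
          · rw [update_of_ne hxz] at hx; exact hx.1
    · exact RR_lt_of_f hK' (htopσ.2 K' hKσ hKK)

end Pool.Agent.SKS
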