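import Pool.Agent.SKS.F

/-! # The main theorem for abstract systems -/

namespace Pool.Agent.SKS

open Finset Function

variable {n : ℕ} {Y : Sys n}

/-- a frame, supported (in dimension at most `m`) in the complex of all cubes -/
structure Fr (j m : ℕ) (c : SV n → ZMod 2) : Prop where
  F1 : ∀ τ, cof c τ = c τ + c (-τ)
  F2 : ∑ σ, (if dim σ = 0 then c σ else 0) = 1
  FX : ∀ σ, dim σ ≤ m → c σ ≠ 0 → XX j σ

theorem cof_neg (c : SV n → ZMod 2) (τ : SV n) : cof (fun κ => c (-κ)) τ = cof c (-τ) := by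
  unfold cof
  refine Finset.sum_congr rfl fun z _ => ?_
  have e1 : ((-τ) z = 0) ↔ (τ z = 0) := by
    rw [Pi.neg_apply]
    rcases sign_cases (τ z) with h | h | h <;> rw [h] <;> decide
  by_cases h0 : τ z = 0
  · rw [if_pos h0, if_pos (e1.2 h0)]
  · rw [if_neg h0, if_neg (fun q => h0 (e1.1 q)), update_neg]
    rfl

theorem cof_lin (c s s' g g' : SV n → ZMod 2) (p a b : ZMod 2) (τ : SV n) :
    cof (fun κ => c κ + (p * (s κ + s' κ) + a * g κ + b * g' κ)) τ =
      cof c τ + (p * (cof s τ + cof s' τ) + a * cof g τ + b * cof g' τ) := by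
  unfold cof
  rw [Finset.mul_sum, Finset.mul_sum, ← Finset.sum_add_distrib, Finset.mul_sum,
    ← Finset.sum_add_distrib, ← Finset.sum_add_distrib, ← Finset.sum_add_distrib]
  refine Finset.sum_congr rfl fun z _ => ?_
  split_ifs
  · ring
  · ring

/-- the value on the upper partner -/
theorem upper_value {j m ρ : ℕ} {τ σ : SV n} {u : Fin n} (hτu : τ u = -1)
    (hστ : σ = update τ u 0) (hσm : dim σ ≤ m) (hUτ : ¬ UU Y j τ)
    (hcof : ∀ z, z ≠ u → τ z ≠ 0 → XX j (update τ z 0) → ρ < RR Y j m (update τ z 0))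
    (d : SV n → ZMod 2) (hd1 : cof d τ = d τ + d (-τ))
    (hmax : ∀ ω, dim ω ≤ m → d ω ≠ 0 → ¬ UU Y j ω → XX j ω ∧ RR Y j m ω ≤ ρ) :
    d σ = d τ + d (-τ) := by
  rw [← hd1]
  unfold cof
  rw [Finset.sum_eq_single u]
  · rw [if_neg (by rw [hτu]; decide), ← hστ]
  · intro z _ hz
    by_cases h0 : τ z = 0
    · rw [if_pos h0]
    · rw [if_neg h0]
      by_contra hne
      have h1 : dim (update τ z 0) = dim τ + 1 := dim_update_zero h0
      have h2 : dim σ = dim τ + 1 := by
        rw [hστ]; exact dim_update_zero (by rw [hτu]; decide)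
      have h3 : ¬ UU Y j (update τ z 0) := by
        intro q
        apply hUτ
        have h4 := UU_update (ε := τ z) (update_self z 0 τ) q
        rwa [update_idem, update_eq_self] at h4
      obtain ⟨h4, h5⟩ := hmax _ (by omega) hne h3
      have h6 := hcof z hz h0 h4
      omega
  · intro h; exact absurd (mem_univ _) h

open Classical in
/-- the bad cubes -/
noncomputable def Bad (Y : Sys n) (j m : ℕ) (c : SV n → ZMod 2) : Finset (SV n) :=
  univ.filter (fun σ => dim σ ≤ m ∧ c σ ≠ 0 ∧ ¬ UU Y j σ)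

theorem mem_Bad {j m : ℕ} {c : SV n → ZMod 2} {σ : SV n} :
    σ ∈ Bad Y j m c ↔ dim σ ≤ m ∧ c σ ≠ 0 ∧ ¬ UU Y j σ := by
  classical
  unfold Bad
  simp

theorem step {j m : ℕ} (hj : ∀ M : Finset (Fin n), M.card = j → ¬ Y.Cl M)
    (hm : 2 * m + 2 * j < n) (hj1 : 1 ≤ j) {c : SV n → ZMod 2} (hc : Fr j m c)
    (hbad : (Bad Y j m c).Nonempty) :
    ∃ c', Fr j m c' ∧ ∑ σ ∈ Bad Y j m c', (Fintype.card (SV n) + 1) ^ RR Y j m σ <
      ∑ σ ∈ Bad Y j m c, (Fintype.card (SV n) + 1) ^ RR Y j m σ := by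
  classical
  have hn : 0 < n := by omega
  have hdi : ∀ K, ModeB Y j m K ∨ ModeB Y j m Kᶜ := fun K => dichotomy hj hm K
  obtain ⟨σs, hσs, hmax⟩ := Finset.exists_max_image (Bad Y j m c) (RR Y j m) hbad
  have hσs' := mem_Bad.1 hσs
  have hXs : XX j σs := hc.FX σs hσs'.1 hσs'.2.1
  have htop := top_isTop (exists_top (Y := Y) (pos_nonempty hj1 hXs))
  -- the representative with chosen top
  obtain ⟨σ', K, hσ'eq, hX', hU', hd', hK', hC', hR'⟩ : ∃ (σ' : SV n) (K : Finset (Fin n)),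
      (σs = σ' ∨ σs = -σ') ∧ XX j σ' ∧ ¬ UU Y j σ' ∧ dim σ' ≤ m ∧ IsTop Y σ' K ∧
      Chosen Y j m K ∧ RR Y j m σs = rr Y K σ' := by
    by_cases h : Chosen Y j m (top Y σs)
    · exact ⟨σs, top Y σs, Or.inl rfl, hXs, hσs'.2.2, hσs'.1, htop, h, RR_of_chosen htop h⟩
    · have h2 : Chosen Y j m (top Y σs)ᶜ := (chosen_compl hn (hdi _)).2 h
      refine ⟨-σs, (top Y σs)ᶜ, Or.inr (_root_.neg_neg _).symm, hXs.neg,
        fun q => hσs'.2.2 (UU_neg_iff.1 q), by rw [dim_neg]; exact hσs'.1, htop.neg, h2, ?_⟩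
      rw [← RR_of_chosen htop.neg h2, RR_neg hn hdi ⟨_, htop⟩]
  obtain ⟨τ, σ, u, hτu, hστ, hpair, htopτ, htopσ, hUτ, hUσ, hXτ, hXσ, hdτ, hrrτ, hrrσ, hcof,
    hfac⟩ := pair_facts hj1 hX' hU' hd' hK' hC'
  set ρ := RR Y j m σs with hρ
  have hRτ : RR Y j m τ = ρ := by rw [RR_of_chosen htopτ hC', hrrτ, hR']
  have hRσ : RR Y j m σ = ρ := by rw [RR_of_chosen htopσ hC', hrrσ, hR']
  have hdσ : dim σ = dim τ + 1 := by
    rw [hστ]; exact dim_update_zero (by rw [hτu]; decide)
  have hσu : σ u = 0 := by rw [hστ, update_self]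
  have hτσ : τ = update σ u (-1) := by
    rw [hστ, update_idem, ← hτu, update_eq_self]
  have hmax' : ∀ ω, dim ω ≤ m → c ω ≠ 0 → ¬ UU Y j ω → XX j ω ∧ RR Y j m ω ≤ ρ := by
    intro ω h1 h2 h3
    exact ⟨hc.FX ω h1 h2, hmax ω (mem_Bad.2 ⟨h1, h2, h3⟩)⟩
  have hmaxn : ∀ ω, dim ω ≤ m → c (-ω) ≠ 0 → ¬ UU Y j ω → XX j ω ∧ RR Y j m ω ≤ ρ := by
    intro ω h1 h2 h3
    obtain ⟨h4, h5⟩ := hmax' (-ω) (by rw [dim_neg]; exact h1) h2 (fun q => h3 (UU_neg_iff.1 q))
    have h6 : XX j ω := by have := h4.neg; rwa [_root_.neg_neg] at this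
    refine ⟨h6, ?_⟩
    rw [← RR_neg hn hdi (exists_top (pos_nonempty hj1 h6))]
    exact h5
  have hcof' : ∀ z, z ≠ u → τ z ≠ 0 → XX j (update τ z 0) → ρ < RR Y j m (update τ z 0) := by
    intro z h1 h2 h3
    rw [hR']; exact hcof z h1 h2 h3
  have hfac' : ∀ z ε, ε ≠ 0 → σ z = 0 → update σ z ε ≠ τ → RR Y j m (update σ z ε) < ρ := by
    intro z ε h1 h2 h3
    rw [hR']; exact hfac z ε h1 h2 h3
  -- `τ ≠ -τ`
  have hττ : -τ ≠ τ := by
    intro q
    obtain ⟨z, hz⟩ := pos_nonempty hj1 hXτ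
    rw [mem_pos] at hz
    have := congrFun q z
    rw [Pi.neg_apply, hz] at this
    exact absurd this (by decide)
  have hσσ : σ ≠ -σ := by
    intro q
    obtain ⟨z, hz⟩ := pos_nonempty hj1 hXσ
    rw [mem_pos] at hz
    have := congrFun q z
    rw [Pi.neg_apply, hz] at this
    exact absurd this (by decide)
  -- boundary values
  have hbd1 : bd σ τ = 1 := by
    unfold bd cof
    rw [Finset.sum_eq_single u]
    · rw [if_neg (by rw [hτu]; decide), ← hστ, Pi.single_eq_same]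
    · intro z _ hz
      by_cases h0 : τ z = 0
      · rw [if_pos h0]
      · rw [if_neg h0]
        refine Pi.single_eq_of_ne (fun q => ?_) _
        have := congrFun q u
        rw [update_of_ne (Ne.symm hz), hτu, hσu] at this
        exact absurd this (by decide)
    · intro h; exact absurd (mem_univ _) h
  have hbdfac : ∀ κ, bd σ κ ≠ 0 → κ ≠ τ → RR Y j m κ < ρ ∧ XX j κ := by
    intro κ h1 h2
    obtain ⟨z, h3, h4, h5⟩ := bd_ne h1
    refine ⟨?_, ?_⟩
    · rw [h5] at h2 ⊢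
      exact hfac' z _ h3 h4 h2
    · rw [h5]; exact XX_update h4 hXσ
  have hRneg : ∀ κ, XX j κ → RR Y j m (-κ) = RR Y j m κ := fun κ h =>
    RR_neg hn hdi (exists_top (pos_nonempty hj1 h))
  have hbd2 : bd σ (-τ) = 0 := by
    by_contra h
    obtain ⟨h1, h2⟩ := hbdfac _ h hττ
    rw [hRneg τ hXτ, hRτ] at h1
    exact lt_irrefl _ h1
  have hbddim : ∀ κ, bd σ κ ≠ 0 → dim κ + 1 = dim σ := by
    intro κ h1
    obtain ⟨z, h3, h4, h5⟩ := bd_ne h1
    rw [h5]
    exact dim_update_of h4 h3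
  set a := c τ with ha
  set b := c (-τ) with hb
  let s : SV n → ZMod 2 := Pi.single σ 1
  let s' : SV n → ZMod 2 := Pi.single (-σ) 1
  let c' : SV n → ZMod 2 := fun κ => c κ + ((a + b) * (s κ + s' κ) + a * bd σ κ + b * bd (-σ) κ)
  have hs : ∀ κ, s (-κ) = s' κ := by
    intro κ
    show (Pi.single σ 1 : SV n → ZMod 2) (-κ) = (Pi.single (-σ) 1 : SV n → ZMod 2) κ
    by_cases h : κ = -σ
    · rw [h, _root_.neg_neg, Pi.single_eq_same, Pi.single_eq_same]
    · rw [Pi.single_eq_of_ne h, Pi.single_eq_of_ne]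
      intro q
      apply h
      rw [← q, _root_.neg_neg]
  have hs' : ∀ κ, s' (-κ) = s κ := by
    intro κ
    rw [← hs, _root_.neg_neg]
  have hbdn : ∀ κ, bd (-σ) κ = bd σ (-κ) := fun κ => (bd_neg σ κ).symm
  have hs_ne : ∀ κ, s κ ≠ 0 → κ = σ := by
    intro κ h
    by_contra hne
    exact h (Pi.single_eq_of_ne hne _)
  have hs'_ne : ∀ κ, s' κ ≠ 0 → κ = -σ := by
    intro κ h
    by_contra hne
    exact h (Pi.single_eq_of_ne hne _)
  -- the four special values
  have hsτ : s τ = 0 := by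
    by_contra h
    have := congrArg dim (hs_ne _ h)
    omega
  have hs'τ : s' τ = 0 := by
    by_contra h
    have := congrArg dim (hs'_ne _ h)
    rw [dim_neg] at this
    omega
  have hv1 : c' τ = 0 := by
    show c τ + ((a + b) * (s τ + s' τ) + a * bd σ τ + b * bd (-σ) τ) = 0
    rw [hsτ, hs'τ, hbd1, hbdn, hbd2, ← ha]
    linear_combination two_eq_zero' a
  have hv2 : c' (-τ) = 0 := by
    show c (-τ) + ((a + b) * (s (-τ) + s' (-τ)) + a * bd σ (-τ) + b * bd (-σ) (-τ)) = 0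
    rw [hs, hs', hsτ, hs'τ, hbdn, _root_.neg_neg, hbd1, hbd2, ← hb]
    linear_combination two_eq_zero' b
  have hbdσ : ∀ κ, dim κ = dim σ → bd σ κ = 0 := by
    intro κ h
    by_contra hne
    have := hbddim κ hne
    omega
  have hsσ : s σ = 1 := Pi.single_eq_same _ _
  have hs'σ : s' σ = 0 := Pi.single_eq_of_ne hσσ _
  have hv3 : dim σ ≤ m → c' σ = 0 := by
    intro hdm
    have h1 := upper_value hτu hστ hdm hUτ hcof' c (hc.F1 τ) hmax'
    show c σ + ((a + b) * (s σ + s' σ) + a * bd σ σ + b * bd (-σ) σ) = 0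
    rw [hsσ, hs'σ, hbdσ σ rfl, hbdn, hbdσ (-σ) (dim_neg σ), h1, ← ha, ← hb]
    linear_combination two_eq_zero' (a + b)
  have hv4 : dim σ ≤ m → c' (-σ) = 0 := by
    intro hdm
    have h1 := upper_value hτu hστ hdm hUτ hcof' (fun κ => c (-κ)) (by
      rw [cof_neg, hc.F1]) hmaxn
    simp only [_root_.neg_neg] at h1
    show c (-σ) + ((a + b) * (s (-σ) + s' (-σ)) + a * bd σ (-σ) + b * bd (-σ) (-σ)) = 0
    rw [hs, hs', hsσ, hs'σ, hbdσ (-σ) (dim_neg σ), hbdn, _root_.neg_neg, hbdσ σ rfl, h1,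
      ← ha, ← hb]
    linear_combination two_eq_zero' (a + b)
  refine ⟨c', ⟨?_, ?_, ?_⟩, ?_⟩
  · intro κ
    show cof (fun κ => c κ + ((a + b) * (s κ + s' κ) + a * bd σ κ + b * bd (-σ) κ)) κ =
      (c κ + ((a + b) * (s κ + s' κ) + a * bd σ κ + b * bd (-σ) κ)) +
      (c (-κ) + ((a + b) * (s (-κ) + s' (-κ)) + a * bd σ (-κ) + b * bd (-σ) (-κ)))
    rw [cof_lin, hc.F1]
    have e1 : cof s κ = bd σ κ := rfl
    have e2 : cof s' κ = bd (-σ) κ := rfl
    have e3 : cof (bd σ) κ = 0 := cof_cof _ _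
    have e4 : cof (bd (-σ)) κ = 0 := cof_cof _ _
    rw [e1, e2, e3, e4, hs, hs', hbdn κ, hbdn (-κ), _root_.neg_neg]
    linear_combination (-(a + b)) * two_eq_zero' (s κ + s' κ)
  · have e : ∀ κ, (if dim κ = 0 then c' κ else 0) = (if dim κ = 0 then c κ else 0) +
        (a * (if dim κ = 0 then bd σ κ else 0) + b * (if dim κ = 0 then bd (-σ) κ else 0)) := by
      intro κ
      by_cases h0 : dim κ = 0
      · rw [if_pos h0, if_pos h0, if_pos h0, if_pos h0]
        show c κ + ((a + b) * (s κ + s' κ) + a * bd σ κ + b * bd (-σ) κ) = _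
        have h1 : s κ = 0 := by
          by_contra h
          have := congrArg dim (hs_ne _ h)
          omega
        have h2 : s' κ = 0 := by
          by_contra h
          have := congrArg dim (hs'_ne _ h)
          rw [dim_neg] at this
          omega
        rw [h1, h2]; ring
      · rw [if_neg h0, if_neg h0, if_neg h0, if_neg h0]; ring
    rw [Finset.sum_congr rfl fun κ _ => e κ, Finset.sum_add_distrib, Finset.sum_add_distrib,
      ← Finset.mul_sum, ← Finset.mul_sum, sum_bd, sum_bd, hc.F2]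
    ring
  · intro κ hκ hne
    by_cases h1 : c κ = 0
    · by_cases h2 : s κ = 0
      · by_cases h3 : s' κ = 0
        · by_cases h4 : bd σ κ = 0
          · by_cases h5 : bd (-σ) κ = 0
            · exfalso
              apply hne
              show c κ + ((a + b) * (s κ + s' κ) + a * bd σ κ + b * bd (-σ) κ) = 0
              rw [h1, h2, h3, h4, h5]; ring
            · obtain ⟨z, h6, h7, h8⟩ := bd_ne h5
              rw [h8]; exact XX_update h7 hXσ.neg
          · obtain ⟨z, h6, h7, h8⟩ := bd_ne h4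
            rw [h8]; exact XX_update h7 hXσ
        · rw [hs'_ne κ h3]; exact hXσ.neg
      · rw [hs_ne κ h2]; exact hXσ
    · exact hc.FX κ hκ h1
  · refine weight_lt hσs ?_ ?_
    · intro y hy
      rw [mem_Bad] at hy
      obtain ⟨hy1, hy2, hy3⟩ := hy
      by_cases hlt : RR Y j m y < RR Y j m σs
      · exact Or.inr hlt
      · left
        have hyτ : y ≠ τ := fun q => hy2 (by rw [q]; exact hv1)
        have hyτ' : y ≠ -τ := fun q => hy2 (by rw [q]; exact hv2)
        have hyσ : y ≠ σ := fun q => hy2 (by rw [q]; exact hv3 (by rw [← q]; exact hy1))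
        have hyσ' : y ≠ -σ := fun q => hy2 (by
          rw [q]; exact hv4 (by rw [← dim_neg σ, ← q]; exact hy1))
        have h1 : s y = 0 := by
          by_contra h; exact hyσ (hs_ne _ h)
        have h2 : s' y = 0 := by
          by_contra h; exact hyσ' (hs'_ne _ h)
        have h3 : bd σ y = 0 := by
          by_contra h
          exact hlt (hbdfac y h hyτ).1
        have h4 : bd (-σ) y = 0 := by
          by_contra h
          rw [hbdn] at h
          obtain ⟨h5, h6⟩ := hbdfac (-y) h (fun q => hyτ' (by rw [← q, _root_.neg_neg]))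
          have h7 := hRneg (-y) h6
          rw [_root_.neg_neg] at h7
          exact hlt (by rw [h7]; exact h5)
        have h5 : c' y = c y := by
          show c y + ((a + b) * (s y + s' y) + a * bd σ y + b * bd (-σ) y) = c y
          rw [h1, h2, h3, h4]; ring
        refine mem_erase.2 ⟨?_, mem_Bad.2 ⟨hy1, by rw [← h5]; exact hy2, hy3⟩⟩
        intro q
        rcases hσ'eq with h | h <;> rcases hpair with h' | h'
        · exact hyτ (by rw [q, h, h'])
        · exact hyσ (by rw [q, h, h'])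
        · exact hyτ' (by rw [q, h, h'])
        · exact hyσ' (by rw [q, h, h'])
    · exact Nat.lt_succ_of_le (card_le_univ _)

/-- **Main theorem** for abstract systems: if `n` is odd, there is a closed set of each
cardinality `j ≤ (n - 1) / 2`. -/
theorem exists_closed (Y : Sys n) {j : ℕ} (hn : Odd n) (hjn : 2 * j < n) :
    ∃ M : Finset (Fin n), M.card = j ∧ Y.Cl M := by
  classical
  rcases Nat.eq_zero_or_pos j with hj0 | hj1
  · subst hj0
    exact ⟨∅, card_empty, Sys.cl_empty⟩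
  by_contra hcon
  push Not at hcon
  obtain ⟨t, ht⟩ := hn
  obtain ⟨m, hm⟩ : ∃ m, n = 2 * j + 2 * m + 1 := ⟨t - j, by omega⟩
  -- a frame with minimal weight
  obtain ⟨c0, h1, h2, h3⟩ := exists_frame (n := n) (j := j) (m := m) (by omega)
  have hfr0 : Fr j m c0 := ⟨h1, h2, h3⟩
  obtain ⟨c, hc, hmin⟩ := WellFounded.has_min
    (InvImage.wf (fun c : SV n → ZMod 2 =>
      ∑ σ ∈ Bad Y j m c, (Fintype.card (SV n) + 1) ^ RR Y j m σ) Nat.lt_wfRel.wf)
    {c : SV n → ZMod 2 | Fr j m c} ⟨c0, hfr0⟩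
  have hempty : Bad Y j m c = ∅ := by
    by_contra hne
    obtain ⟨c', hc', hlt⟩ := step hcon (by omega) hj1 hc (nonempty_iff_ne_empty.2 hne)
    exact hmin c' hc' hlt
  have hsupp : ∀ σ, dim σ ≤ m → c σ ≠ 0 → UU Y j σ := by
    intro σ hd hσ
    by_contra hU
    have : σ ∈ Bad Y j m c := mem_Bad.2 ⟨hd, hσ, hU⟩
    rw [hempty] at this
    exact notMem_empty _ this
  -- the Tucker argument
  have hpn : ∀ σ : SV n, UU Y j σ → Y.PP j (pos σ) ≠ Y.PP j (neg σ) := by
    intro σ hσ q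
    have h1 := Sys.PP_card hσ.1
    have h2 := Sys.PP_disj (Y := Y) (j := j) (disj_pos_neg σ)
    rw [← q, disjoint_self] at h2
    rw [h2] at h1
    simp at h1
  have hfacpos : ∀ (σ : SV n) z (ε : SignType), σ z = 0 → pos σ ⊆ pos (update σ z ε) := by
    intro σ z ε hz x hx
    rw [mem_pos] at hx ⊢
    by_cases hxz : x = z
    · subst hxz; rw [hz] at hx; exact absurd hx (by decide)
    · rw [update_of_ne hxz]; exact hx
  have hfacneg : ∀ (σ : SV n) z (ε : SignType), σ z = 0 → neg σ ⊆ neg (update σ z ε) := by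
    intro σ z ε hz x hx
    rw [mem_neg] at hx ⊢
    by_cases hxz : x = z
    · subst hxz; rw [hz] at hx; exact absurd hx (by decide)
    · rw [update_of_ne hxz]; exact hx
  refine lemmaT (m := m) (UU Y j) (fun σ h => h.neg) (fun σ z ε _ h hz => UU_update hz h)
    (fun σ => if key (Y.PP j (pos σ)) < key (Y.PP j (neg σ)) then 0 else 1) ?_
    (fun σ => n - ((Y.PP j (pos σ)).card + (Y.PP j (neg σ)).card)) ?_ ?_ c hsupp
    (fun τ _ => hc.F1 τ) hc.F2
  · intro σ hσ
    have h1 : key (Y.PP j (pos σ)) ≠ key (Y.PP j (neg σ)) := fun q => hpn σ hσ (key_inj q)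
    show (if key (Y.PP j (pos (-σ))) < key (Y.PP j (neg (-σ))) then (0 : ZMod 2) else 1) =
      (if key (Y.PP j (pos σ)) < key (Y.PP j (neg σ)) then 0 else 1) + 1
    rw [pos_neg, neg_neg']
    by_cases h2 : key (Y.PP j (pos σ)) < key (Y.PP j (neg σ))
    · rw [if_pos h2, if_neg (by omega)]; decide
    · rw [if_neg h2, if_pos (by omega)]; decide
  · intro σ z ε hε hσ hz hne
    have hsub1 : Y.PP j (pos σ) ⊆ Y.PP j (pos (update σ z ε)) := Sys.PP_mono (hfacpos σ z ε hz)
    have hsub2 : Y.PP j (neg σ) ⊆ Y.PP j (neg (update σ z ε)) := Sys.PP_mono (hfacneg σ z ε hz)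
    have hc1 := card_le_card hsub1
    have hc2 := card_le_card hsub2
    have hdis := Sys.PP_disj (Y := Y) (j := j) (disj_pos_neg (update σ z ε))
    have hcard : (Y.PP j (pos (update σ z ε))).card + (Y.PP j (neg (update σ z ε))).card ≤ n := by
      rw [← card_union_of_disjoint hdis]
      exact (card_le_univ _).trans (by rw [Fintype.card_fin])
    by_cases he1 : Y.PP j (pos σ) = Y.PP j (pos (update σ z ε))
    · by_cases he2 : Y.PP j (neg σ) = Y.PP j (neg (update σ z ε))
      · exfalso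
        apply hne
        rw [← he1, ← he2]
      · have := Sys.CO.gap (Sys.PP_CO j (neg σ)) (Sys.PP_CO j (neg (update σ z ε))) hsub2 he2
        show n - _ + 2 ≤ n - _
        omega
    · have := Sys.CO.gap (Sys.PP_CO j (pos σ)) (Sys.PP_CO j (pos (update σ z ε))) hsub1 he1
      show n - _ + 2 ≤ n - _
      omega
  · intro σ hσ
    have h1 := Sys.PP_card hσ.1
    have h2 := Sys.PP_card hσ.2
    have hdis := Sys.PP_disj (Y := Y) (j := j) (disj_pos_neg σ)
    have hcard : (Y.PP j (pos σ)).card + (Y.PP j (neg σ)).card ≤ n := by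
      rw [← card_union_of_disjoint hdis]
      exact (card_le_univ _).trans (by rw [Fintype.card_fin])
    show n - _ < 2 * m
    omega

end Pool.Agent.SKS
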