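import Pool.Agent.SKS.G

/-! # The theorem for weighted graphs of odd order -/

namespace Pool.Agent.SKS

open Finset

variable {n : ℕ}

/-- code of an unordered pair -/
def cod (u v : Fin n) : ℕ := Nat.pair (min u.val v.val) (max u.val v.val)

theorem cod_comm (u v : Fin n) : cod u v = cod v u := by
  unfold cod; rw [min_comm, max_comm]

theorem cod_eq {u v u' v' : Fin n} (h : cod u v = cod u' v') :
    (u = u' ∧ v = v') ∨ (u = v' ∧ v = u') := by
  unfold cod at h
  rw [Nat.pair_eq_pair] at h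
  obtain ⟨h1, h2⟩ := h
  have : (u.val = u'.val ∧ v.val = v'.val) ∨ (u.val = v'.val ∧ v.val = u'.val) := by omega
  simpa [Fin.ext_iff] using this

/-- the big multiplier -/
def Bmul (n : ℕ) : ℕ := 1 + ∑ u : Fin n, ∑ v : Fin n, 2 ^ cod u v

/-- perturbed weights -/
def PW (W : Fin n → Fin n → ℕ) (u v : Fin n) : ℕ :=
  if u = v then 0 else Bmul n * W u v + 2 ^ cod u v

theorem PW_self (W : Fin n → Fin n → ℕ) (u : Fin n) : PW W u u = 0 := by simp [PW]

theorem PW_ne (W : Fin n → Fin n → ℕ) {u v : Fin n} (h : u ≠ v) :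
    PW W u v = Bmul n * W u v + 2 ^ cod u v := by simp [PW, h]

theorem PW_comm {W : Fin n → Fin n → ℕ} (hW : ∀ u v, W u v = W v u) (u v : Fin n) :
    PW W u v = PW W v u := by
  unfold PW
  by_cases h : u = v
  · subst h; rfl
  · rw [if_neg h, if_neg (fun q => h q.symm), hW, cod_comm]

/-- star sums -/
theorem star_sum (W : Fin n → Fin n → ℕ) (u : Fin n) (S : Finset (Fin n)) (hu : u ∉ S) :
    ∑ v ∈ S, PW W u v = Bmul n * ∑ v ∈ S, W u v + ∑ v ∈ S, 2 ^ cod u v := by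
  rw [mul_sum, ← sum_add_distrib]
  apply sum_congr rfl
  intro v hv
  exact PW_ne W (fun q => hu (q ▸ hv))

theorem star_small (u : Fin n) (S : Finset (Fin n)) : ∑ v ∈ S, 2 ^ cod u v < Bmul n := by
  have h1 : ∑ v ∈ S, 2 ^ cod u v ≤ ∑ v : Fin n, 2 ^ cod u v :=
    sum_le_sum_of_subset (subset_univ _)
  have h2 : ∑ v : Fin n, 2 ^ cod u v ≤ ∑ u : Fin n, ∑ v : Fin n, 2 ^ cod u v :=
    single_le_sum (f := fun u : Fin n => ∑ v : Fin n, 2 ^ cod u v) (fun _ _ => Nat.zero_le _)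
      (mem_univ u)
  unfold Bmul
  omega

theorem star_inj (u : Fin n) {S S' : Finset (Fin n)}
    (h : ∑ v ∈ S, 2 ^ cod u v = ∑ v ∈ S', 2 ^ cod u v) : S = S' := by
  have hinj : Function.Injective (fun v : Fin n => cod u v) := by
    intro v v' hv
    rcases cod_eq hv with ⟨_, h1⟩ | ⟨h1, h2⟩
    · exact h1
    · rw [h2, h1]
  have h1 : ∀ S : Finset (Fin n), ∑ v ∈ S, 2 ^ cod u v =
      ∑ i ∈ S.image (fun v => cod u v), 2 ^ i := by
    intro S
    rw [sum_image (fun a _ b _ hab => hinj hab)]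
  rw [h1, h1] at h
  exact image_injective hinj (Finset.geomSum_injective (le_refl 2) h)

theorem div_split {B a c a' c' : ℕ} (hc : c < B) (hc' : c' < B)
    (h : B * a + c = B * a' + c') : a = a' ∧ c = c' := by
  have h1 : (B * a + c) % B = (B * a' + c') % B := by rw [h]
  rw [Nat.mul_add_mod, Nat.mul_add_mod, Nat.mod_eq_of_lt hc, Nat.mod_eq_of_lt hc'] at h1
  subst h1
  refine ⟨?_, rfl⟩
  have h2 : B * a = B * a' := by omega
  exact Nat.eq_of_mul_eq_mul_left (by omega) h2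

/-- the edges of the complete graph cut by `S` -/
def cutE (S : Finset (Fin n)) : Finset (Fin n × Fin n) :=
  univ.filter (fun p => p.1 < p.2 ∧ ¬ (p.1 ∈ S ↔ p.2 ∈ S))

/-- the cut function -/
def cutf (W : Fin n → Fin n → ℕ) (S : Finset (Fin n)) : ℕ := ∑ p ∈ cutE S, PW W p.1 p.2

theorem mem_cutE {S : Finset (Fin n)} {p : Fin n × Fin n} :
    p ∈ cutE S ↔ p.1 < p.2 ∧ ¬ (p.1 ∈ S ↔ p.2 ∈ S) := by
  simp [cutE]

theorem cutE_compl (S : Finset (Fin n)) : cutE Sᶜ = cutE S := by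
  ext p
  rw [mem_cutE, mem_cutE, mem_compl, mem_compl]
  tauto

theorem cutf_eq (W : Fin n → Fin n → ℕ) (S : Finset (Fin n)) :
    cutf W S = Bmul n * ∑ p ∈ cutE S, W p.1 p.2 + ∑ p ∈ cutE S, 2 ^ cod p.1 p.2 := by
  unfold cutf
  rw [mul_sum, ← sum_add_distrib]
  apply sum_congr rfl
  intro p hp
  exact PW_ne W (ne_of_lt (mem_cutE.1 hp).1)

theorem cut_small (S : Finset (Fin n)) : ∑ p ∈ cutE S, 2 ^ cod p.1 p.2 < Bmul n := by
  have h1 : ∑ p ∈ cutE S, 2 ^ cod p.1 p.2 ≤ ∑ p : Fin n × Fin n, 2 ^ cod p.1 p.2 :=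
    sum_le_sum_of_subset (subset_univ _)
  have h2 : ∑ p : Fin n × Fin n, 2 ^ cod p.1 p.2 = ∑ u : Fin n, ∑ v : Fin n, 2 ^ cod u v := by
    rw [← univ_product_univ, sum_product]
  unfold Bmul
  omega

theorem cut_inj {S S' : Finset (Fin n)}
    (h : ∑ p ∈ cutE S, 2 ^ cod p.1 p.2 = ∑ p ∈ cutE S', 2 ^ cod p.1 p.2) : cutE S = cutE S' := by
  have hinj : ∀ p q : Fin n × Fin n, p.1 < p.2 → q.1 < q.2 →
      cod p.1 p.2 = cod q.1 q.2 → p = q := by
    intro p q hp hq hpq
    rcases cod_eq hpq with ⟨h1, h2⟩ | ⟨h1, h2⟩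
    · exact Prod.ext h1 h2
    · exfalso
      rw [h1, h2] at hp
      exact absurd hp (not_lt.2 hq.le)
  have h1 : ∀ S : Finset (Fin n), ∑ p ∈ cutE S, 2 ^ cod p.1 p.2 =
      ∑ i ∈ (cutE S).image (fun p => cod p.1 p.2), 2 ^ i := by
    intro S
    rw [sum_image]
    intro a ha b hb hab
    exact hinj a b (mem_cutE.1 ha).1 (mem_cutE.1 hb).1 hab
  rw [h1, h1] at h
  have h2 := Finset.geomSum_injective (le_refl 2) h
  have h3 : ∀ S S' : Finset (Fin n), (cutE S).image (fun p => cod p.1 p.2) =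
      (cutE S').image (fun p => cod p.1 p.2) → cutE S ⊆ cutE S' := by
    intro S S' hSS p hp
    have : cod p.1 p.2 ∈ (cutE S').image (fun p => cod p.1 p.2) := by
      rw [← hSS]
      exact mem_image_of_mem _ hp
    obtain ⟨q, hq, hqp⟩ := mem_image.1 this
    rw [hinj p q (mem_cutE.1 hp).1 (mem_cutE.1 hq).1 hqp.symm]
    exact hq
  exact (h3 _ _ h2).antisymm (h3 _ _ h2.symm)

theorem cut_determines {S S' : Finset (Fin n)} (h : cutE S = cutE S') : S' = S ∨ S' = Sᶜ := by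
  have key : ∀ a b : Fin n, a < b → ((a ∈ S ↔ b ∈ S) ↔ (a ∈ S' ↔ b ∈ S')) := by
    intro a b hab
    have h1 : (a, b) ∈ cutE S ↔ (a, b) ∈ cutE S' := by rw [h]
    rw [mem_cutE, mem_cutE] at h1
    simp only [hab, true_and] at h1
    tauto
  have key2 : ∀ a b : Fin n, ((a ∈ S ↔ b ∈ S) ↔ (a ∈ S' ↔ b ∈ S')) := by
    intro a b
    rcases lt_trichotomy a b with hab | hab | hab
    · exact key a b hab
    · subst hab; tauto
    · have := key b a hab; tauto
  by_cases hall : ∀ a : Fin n, (a ∈ S ↔ a ∈ S')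
  · left; ext a; exact (hall a).symm
  · right
    simp only [not_forall] at hall
    obtain ⟨a, ha⟩ := hall
    ext b
    rw [mem_compl]
    have := key2 a b
    tauto

/-- adding a vertex changes the cut as expected -/
theorem cut_insert {W : Fin n → Fin n → ℕ} (hW : ∀ u v, W u v = W v u) (u : Fin n)
    (S : Finset (Fin n)) (hu : u ∉ S) :
    cutf W (insert u S) + ∑ v ∈ S, PW W u v = cutf W S + ∑ v ∈ (insert u S)ᶜ, PW W u v := by
  -- symmetric description of twice the cut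
  have h2 : ∀ S : Finset (Fin n), 2 * cutf W S =
      ∑ a : Fin n, ∑ b : Fin n, if ¬ (a ∈ S ↔ b ∈ S) then PW W a b else 0 := by
    intro S
    have e1 : ∑ a : Fin n, ∑ b : Fin n, (if ¬ (a ∈ S ↔ b ∈ S) then PW W a b else 0) =
        ∑ p : Fin n × Fin n, if ¬ (p.1 ∈ S ↔ p.2 ∈ S) then PW W p.1 p.2 else 0 := by
      rw [← univ_product_univ, sum_product]
    have e2 : ∑ p : Fin n × Fin n, (if ¬ (p.1 ∈ S ↔ p.2 ∈ S) then PW W p.1 p.2 else 0) =
        ∑ p : Fin n × Fin n, ((if p.1 < p.2 ∧ ¬ (p.1 ∈ S ↔ p.2 ∈ S) then PW W p.1 p.2 else 0) +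
          (if p.2 < p.1 ∧ ¬ (p.1 ∈ S ↔ p.2 ∈ S) then PW W p.1 p.2 else 0)) := by
      apply sum_congr rfl
      rintro ⟨a, b⟩ _
      rcases lt_trichotomy a b with hab | hab | hab
      · by_cases hc : (a ∈ S ↔ b ∈ S) <;> simp [hab, hc, hab.not_gt]
      · subst hab; simp
      · by_cases hc : (a ∈ S ↔ b ∈ S) <;> simp [hab, hc, hab.not_gt]
    have e3 : ∑ p : Fin n × Fin n,
        (if p.2 < p.1 ∧ ¬ (p.1 ∈ S ↔ p.2 ∈ S) then PW W p.1 p.2 else 0) =
        ∑ p : Fin n × Fin n,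
        (if p.1 < p.2 ∧ ¬ (p.1 ∈ S ↔ p.2 ∈ S) then PW W p.1 p.2 else 0) := by
      apply Fintype.sum_equiv (Equiv.prodComm (Fin n) (Fin n))
      rintro ⟨a, b⟩
      simp only [Equiv.prodComm_apply, Prod.swap_prod_mk]
      rw [PW_comm hW a b]
      by_cases hc : (a ∈ S ↔ b ∈ S)
      · simp [hc]
      · have hc' : ¬ (b ∈ S ↔ a ∈ S) := fun q => hc q.symm
        simp [hc, hc']
    have e4 : cutf W S = ∑ p : Fin n × Fin n,
        (if p.1 < p.2 ∧ ¬ (p.1 ∈ S ↔ p.2 ∈ S) then PW W p.1 p.2 else 0) := by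
      unfold cutf cutE
      rw [sum_filter]
    rw [e1, e2, sum_add_distrib, e3, ← e4]
    ring
  have hsplit : ∀ T : Finset (Fin n), 2 * cutf W T =
      (∑ b : Fin n, if ¬ (u ∈ T ↔ b ∈ T) then PW W u b else 0) +
      ((∑ a ∈ univ.erase u, if ¬ (a ∈ T ↔ u ∈ T) then PW W u a else 0) +
      ∑ a ∈ univ.erase u, ∑ b ∈ univ.erase u, if ¬ (a ∈ T ↔ b ∈ T) then PW W a b else 0) := by
    intro T
    rw [h2 T, ← add_sum_erase univ _ (mem_univ u), ← sum_add_distrib]
    congr 1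
    apply sum_congr rfl
    intro a _
    rw [← add_sum_erase univ _ (mem_univ u), PW_comm hW a u]
  have hA : ∀ T : Finset (Fin n),
      (∑ a ∈ univ.erase u, if ¬ (a ∈ T ↔ u ∈ T) then PW W u a else 0) =
      ∑ b : Fin n, if ¬ (u ∈ T ↔ b ∈ T) then PW W u b else 0 := by
    intro T
    rw [← add_sum_erase univ (fun b => if ¬ (u ∈ T ↔ b ∈ T) then PW W u b else 0) (mem_univ u)]
    simp only [not_true_eq_false, if_false, zero_add]
    apply sum_congr rfl
    intro a _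
    by_cases hc : (a ∈ T ↔ u ∈ T)
    · simp [hc]
    · have hc' : ¬ (u ∈ T ↔ a ∈ T) := fun q => hc q.symm
      simp [hc, hc']
  have hB : ∑ a ∈ univ.erase u, ∑ b ∈ univ.erase u,
        (if ¬ (a ∈ insert u S ↔ b ∈ insert u S) then PW W a b else 0) =
      ∑ a ∈ univ.erase u, ∑ b ∈ univ.erase u, if ¬ (a ∈ S ↔ b ∈ S) then PW W a b else 0 := by
    apply sum_congr rfl
    intro a ha
    apply sum_congr rfl
    intro b hb
    have ha' := (mem_erase.1 ha).1
    have hb' := (mem_erase.1 hb).1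
    simp [ha', hb']
  have hC : (∑ b : Fin n, if ¬ (u ∈ S ↔ b ∈ S) then PW W u b else 0) = ∑ v ∈ S, PW W u v := by
    rw [← sum_filter]
    congr 1
    ext b
    simp [hu]
  have hD : (∑ b : Fin n, if ¬ (u ∈ insert u S ↔ b ∈ insert u S) then PW W u b else 0) =
      ∑ v ∈ (insert u S)ᶜ, PW W u v := by
    rw [← sum_filter]
    congr 1
    ext b
    simp
  have k1 := hsplit S
  have k2 := hsplit (insert u S)
  rw [hA, hC] at k1
  rw [hA, hD, hB] at k2
  omega

/-- the system of a weighted graph -/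
def sysOf (hn : 2 ≤ n) (W : Fin n → Fin n → ℕ) (hW : ∀ u v, W u v = W v u) : Sys n where
  wt u S := ∑ v : Fin n, PW W u v < 2 * ∑ v ∈ S, PW W u v
  mono := by
    intro u S S' h1 h2
    exact h2.trans_le (Nat.mul_le_mul_left 2 (sum_le_sum_of_subset h1))
  compl := by
    intro u S
    have h1 : ∑ v : Fin n, PW W u v = ∑ v ∈ S, PW W u v + ∑ v ∈ Sᶜ, PW W u v :=
      (sum_add_sum_compl S _).symm
    have h2 : ∑ v ∈ S, PW W u v ≠ ∑ v ∈ Sᶜ, PW W u v := by
      intro h
      have e : ∀ T : Finset (Fin n), ∑ v ∈ T, PW W u v = ∑ v ∈ T.erase u, PW W u v := by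
        intro T
        by_cases hu : u ∈ T
        · rw [← add_sum_erase T _ hu, PW_self, zero_add]
        · rw [erase_eq_of_notMem hu]
      rw [e S, e Sᶜ, star_sum W u _ (notMem_erase _ _), star_sum W u _ (notMem_erase _ _)] at h
      have h3 := star_inj u (div_split (star_small u _) (star_small u _) h).2
      have h4 : S.erase u = ∅ := by
        apply eq_empty_of_forall_notMem
        intro x hx
        have hx' := h3 ▸ hx
        exact (mem_compl.1 (mem_of_mem_erase hx')) (mem_of_mem_erase hx)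
      have h5 : Sᶜ.erase u = ∅ := by rw [← h3, h4]
      have h6 : ∃ x : Fin n, x ≠ u := by
        by_cases hu : u = ⟨0, by omega⟩
        · exact ⟨⟨1, by omega⟩, by rw [hu]; intro q; simpa [Fin.ext_iff] using q⟩
        · exact ⟨⟨0, by omega⟩, fun q => hu q.symm⟩
      obtain ⟨x, hx⟩ := h6
      by_cases hxS : x ∈ S
      · have : x ∈ S.erase u := mem_erase.2 ⟨hx, hxS⟩
        rw [h4] at this
        exact notMem_empty _ this
      · have : x ∈ Sᶜ.erase u := mem_erase.2 ⟨hx, mem_compl.2 hxS⟩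
        rw [h5] at this
        exact notMem_empty _ this
    omega
  ins := by
    intro u S
    by_cases hu : u ∈ S
    · rw [insert_eq_of_mem hu]
    · rw [sum_insert hu, PW_self, zero_add]
  f := cutf W
  fcompl := by
    intro S
    unfold cutf
    rw [cutE_compl]
  fdec := by
    intro u S hu hw
    have h1 := cut_insert hW u S hu
    have h2 : ∑ v : Fin n, PW W u v = ∑ v ∈ insert u S, PW W u v +
        ∑ v ∈ (insert u S)ᶜ, PW W u v := (sum_add_sum_compl _ _).symm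
    rw [sum_insert hu, PW_self, zero_add] at h2
    omega
  finj := by
    intro S S' h
    rw [cutf_eq, cutf_eq] at h
    exact cut_determines (cut_inj (div_split (cut_small _) (cut_small _) h).2)

/-- **Theorem (odd order)**: a weighted graph of odd order has, for every `j < n / 2`, a set `M`
of `j` vertices such that every vertex outside `M` has at least half of its weight outside. -/
theorem weighted_fin (W : Fin n → Fin n → ℕ) (hW : ∀ u v, W u v = W v u) (hn : Odd n) {j : ℕ}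
    (hj : 2 * j < n) :
    ∃ M : Finset (Fin n), M.card = j ∧ ∀ u, u ∉ M →
      ∑ v ∈ M, W u v ≤ ∑ v ∈ Mᶜ.erase u, W u v := by
  rcases Nat.eq_zero_or_pos j with h0 | h0
  · refine ⟨∅, by simp [h0], fun u _ => by simp⟩
  · obtain ⟨M, hM, hcl⟩ := exists_closed (sysOf (by omega) W hW) hn hj
    refine ⟨M, hM, fun u hu => ?_⟩
    have h1 : ¬ (∑ v : Fin n, PW W u v < 2 * ∑ v ∈ M, PW W u v) := hcl u hu
    have h2 : ∑ v : Fin n, PW W u v = ∑ v ∈ M, PW W u v + ∑ v ∈ Mᶜ, PW W u v :=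
      (sum_add_sum_compl M _).symm
    have h3 : ∑ v ∈ Mᶜ, PW W u v = ∑ v ∈ Mᶜ.erase u, PW W u v := by
      rw [← add_sum_erase Mᶜ _ (mem_compl.2 hu), PW_self, zero_add]
    rw [h3, star_sum W u _ (notMem_erase _ _)] at h2
    rw [star_sum W u M hu] at h1 h2
    have h4 := star_small u (Mᶜ.erase u)
    by_contra hcon
    rw [not_le] at hcon
    have h5 : Bmul n * (∑ v ∈ Mᶜ.erase u, W u v + 1) ≤ Bmul n * ∑ v ∈ M, W u v :=
      Nat.mul_le_mul_left _ hcon
    rw [Nat.mul_add, Nat.mul_one] at h5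
    omega

theorem weighted {V : Type*} [Fintype V] [DecidableEq V] (W : V → V → ℕ)
    (hW : ∀ u v, W u v = W v u) (hn : Odd (Fintype.card V)) {j : ℕ}
    (hj : 2 * j < Fintype.card V) :
    ∃ M : Finset V, M.card = j ∧ ∀ u, u ∉ M →
      ∑ v ∈ M, W u v ≤ ∑ v ∈ Mᶜ.erase u, W u v := by
  obtain e := Fintype.equivFin V
  obtain ⟨M, hM, h⟩ := weighted_fin (fun a b => W (e.symm a) (e.symm b)) (fun a b => hW _ _) hn hj
  refine ⟨M.map e.symm.toEmbedding, by rw [card_map, hM], fun u hu => ?_⟩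
  have hu' : e u ∉ M := by
    intro q
    exact hu (mem_map.2 ⟨e u, q, by simp⟩)
  have h1 := h (e u) hu'
  have h2 : (M.map e.symm.toEmbedding)ᶜ.erase u = (Mᶜ.erase (e u)).map e.symm.toEmbedding := by
    ext x
    simp only [mem_erase, mem_compl, mem_map, Equiv.coe_toEmbedding]
    constructor
    · rintro ⟨hx1, hx2⟩
      refine ⟨e x, ⟨fun q => hx1 (e.injective q), fun q => hx2 ⟨e x, q, by simp⟩⟩, by simp⟩
    · rintro ⟨a, ⟨ha1, ha2⟩, rfl⟩
      refine ⟨fun q => ha1 (by rw [← q]; simp), ?_⟩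
      rintro ⟨b, hb, hba⟩
      exact ha2 ((e.symm.injective hba) ▸ hb)
  rw [h2, sum_map, sum_map]
  simpa using h1

end Pool.Agent.SKS
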