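import Pool.Agent.SKS.G

/-! # A Tucker type lemma with a free sign function -/

namespace Pool.Agent.SKS

open Finset Function

variable {n : ℕ}

/-- A Tucker type lemma: a frame of dimension `m` in a complex `U` with a sign contains a cube
with an odd number of alternating flags. -/
theorem lemmaT2 {m : ℕ} (U : SV n → Prop) (hUneg : ∀ σ, U σ → U (-σ))
    (hUf : ∀ σ z ε, ε ≠ 0 → U σ → σ z = 0 → U (update σ z ε))
    (sg : SV n → ZMod 2) (hsg : ∀ σ, U σ → sg (-σ) = sg σ + 1)
    (c : SV n → ZMod 2) (hc : ∀ σ, dim σ ≤ m → c σ ≠ 0 → U σ)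
    (hF1 : ∀ τ, dim τ < m → cof c τ = c τ + c (-τ))
    (hF2 : ∑ σ, (if dim σ = 0 then c σ else 0) = 1) :
    ∃ σ, dim σ = m ∧ c σ ≠ 0 ∧ NN sg m σ ≠ 0 := by
  -- symmetry of `NN`
  have hNs : ∀ i σ, U σ → NN sg i (-σ) = NN sg i σ := by
    intro i
    induction i with
    | zero => intro σ _; rfl
    | succ i ih =>
      intro σ hσ
      show fac (fun τ => if sg τ = sg (-σ) then 0 else NN sg i τ) (-σ) =
        fac (fun τ => if sg τ = sg σ then 0 else NN sg i τ) σ
      unfold fac
      refine Finset.sum_congr rfl fun z _ => ?_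
      by_cases hz : σ z = 0
      · have hz' : (-σ) z = 0 := by rw [Pi.neg_apply, hz]; rfl
        rw [if_pos hz, if_pos hz', update_neg, update_neg, neg_neg, add_comm]
        have h1 : ∀ ε : SignType, ε ≠ 0 →
            (if sg (-(update σ z ε)) = sg (-σ) then 0 else NN sg i (-(update σ z ε))) =
            (if sg (update σ z ε) = sg σ then 0 else NN sg i (update σ z ε)) := by
          intro ε hε
          have hu := hUf σ z ε hε hσ hz
          rw [ih _ hu, hsg _ hu, hsg _ hσ]
          by_cases h : sg (update σ z ε) = sg σ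
          · rw [if_pos h, if_pos (by rw [h])]
          · rw [if_neg h, if_neg fun q => h (add_right_cancel q)]
        exact congrArg₂ (· + ·) (h1 1 (by decide)) (h1 (-1) (by decide))
      · have hz' : ¬ (-σ) z = 0 := by
          rw [Pi.neg_apply]
          rcases sign_cases (σ z) with h | h | h
          · exact absurd h hz
          · rw [h]; decide
          · rw [h]; decide
        rw [if_neg hz, if_neg hz']
  -- the invariant
  have hQ : ∀ i, i ≤ m → ∑ σ, (if dim σ = i then c σ * NN sg i σ else 0) = 1 := by
    intro i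
    induction i with
    | zero =>
      intro _
      rw [← hF2]
      refine Finset.sum_congr rfl fun σ _ => ?_
      split_ifs
      · exact mul_one _
      · rfl
    | succ i ih =>
      intro hi
      rw [← ih (by omega)]
      have e1 : ∀ σ, (if dim σ = i + 1 then c σ * NN sg (i + 1) σ else 0) =
          (if dim σ = i + 1 then c σ else 0) * fac (fun τ => aa sg i τ * NN sg i τ) σ := by
        intro σ
        rw [(NN_key sg i).2 σ]
        split_ifs
        · rfl
        · rw [zero_mul]
      rw [Finset.sum_congr rfl fun σ _ => e1 σ, duality]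
      have e2 : ∀ τ, aa sg i τ * NN sg i τ * cof (fun σ => if dim σ = i + 1 then c σ else 0) τ =
          (if dim τ = i then aa sg i τ * NN sg i τ * c τ else 0) +
          (if dim τ = i then aa sg i τ * NN sg i τ * c (-τ) else 0) := by
        intro τ
        have e3 : cof (fun σ => if dim σ = i + 1 then c σ else 0) τ =
            if dim τ = i then cof c τ else 0 := by
          unfold cof
          by_cases hd : dim τ = i
          · rw [if_pos hd]
            refine Finset.sum_congr rfl fun z _ => ?_
            by_cases hz : τ z = 0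
            · rw [if_pos hz, if_pos hz]
            · rw [if_neg hz, if_neg hz]
              exact if_pos (by rw [dim_update_zero hz, hd])
          · rw [if_neg hd]
            refine Finset.sum_eq_zero fun z _ => ?_
            by_cases hz : τ z = 0
            · rw [if_pos hz]
            · rw [if_neg hz]
              exact if_neg (by rw [dim_update_zero hz]; omega)
        rw [e3]
        by_cases hd : dim τ = i
        · rw [if_pos hd, if_pos hd, if_pos hd, hF1 τ (by omega)]
          ring
        · rw [if_neg hd, if_neg hd, if_neg hd]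
          ring
      rw [Finset.sum_congr rfl fun τ _ => e2 τ, Finset.sum_add_distrib]
      have e4 : ∑ τ, (if dim τ = i then aa sg i τ * NN sg i τ * c (-τ) else 0) =
          ∑ τ, (if dim τ = i then aa sg i (-τ) * NN sg i (-τ) * c τ else 0) := by
        rw [← Equiv.sum_comp (Equiv.neg (SV n)) (fun τ =>
          if dim τ = i then aa sg i (-τ) * NN sg i (-τ) * c τ else 0)]
        refine Finset.sum_congr rfl fun τ _ => ?_
        show _ = if dim (-τ) = i then aa sg i (-(-τ)) * NN sg i (-(-τ)) * c (-τ) else 0
        rw [dim_neg, neg_neg]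
      rw [e4, ← Finset.sum_add_distrib]
      refine Finset.sum_congr rfl fun τ _ => ?_
      by_cases hd : dim τ = i
      · rw [if_pos hd, if_pos hd, if_pos hd]
        by_cases hcτ : c τ = 0
        · rw [hcτ]; ring
        · have hU := hc τ (by omega) hcτ
          rw [hNs i τ hU]
          have : aa sg i τ + aa sg i (-τ) = 1 := by
            unfold aa
            rw [hsg τ hU]
            rcases zmod2_cases (sg τ) with h | h <;> rcases zmod2_cases ((i : ℕ) : ZMod 2) with h' | h' <;>
              rw [h, h'] <;> decide
          linear_combination c τ * NN sg i τ * this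
      · rw [if_neg hd, if_neg hd, if_neg hd]
        rfl
  have h1 := hQ m le_rfl
  obtain ⟨σ, _, hσ⟩ := Finset.exists_ne_zero_of_sum_ne_zero (s := univ)
    (f := fun σ => if dim σ = m then c σ * NN sg m σ else 0) (by rw [h1]; decide)
  have hd : dim σ = m := by
    by_contra hd
    exact hσ (if_neg hd)
  have hσ' : c σ * NN sg m σ ≠ 0 := by
    rw [if_pos hd] at hσ
    exact hσ
  exact ⟨σ, hd, left_ne_zero_of_mul hσ', right_ne_zero_of_mul hσ'⟩

/-- one step down an alternating flag -/
theorem NN_step {sg : SV n → ZMod 2} {i : ℕ} {σ : SV n} (h : NN sg (i + 1) σ ≠ 0) :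
    ∃ z ε, ε ≠ 0 ∧ σ z = 0 ∧ sg (update σ z ε) ≠ sg σ ∧ NN sg i (update σ z ε) ≠ 0 := by
  have hN' : fac (fun τ => if sg τ = sg σ then 0 else NN sg i τ) σ ≠ 0 := h
  unfold fac at hN'
  obtain ⟨z, _, hz⟩ := Finset.exists_ne_zero_of_sum_ne_zero hN'
  have hz0 : σ z = 0 := by
    by_contra h
    rw [if_neg h] at hz
    exact hz rfl
  rw [if_pos hz0] at hz
  have : ∃ ε : SignType, ε ≠ 0 ∧
      (if sg (update σ z ε) = sg σ then 0 else NN sg i (update σ z ε)) ≠ 0 := by
    by_contra hcon
    push Not at hcon
    apply hz
    have h1 := hcon 1 (by decide)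
    have h2 := hcon (-1) (by decide)
    exact (congrArg₂ (· + ·) h1 h2).trans (add_zero _)
  obtain ⟨ε, hε, hne⟩ := this
  have hs : sg (update σ z ε) ≠ sg σ := by
    intro h
    rw [if_pos h] at hne
    exact hne rfl
  rw [if_neg hs] at hne
  exact ⟨z, ε, hε, hz0, hs, hne⟩

end Pool.Agent.SKS
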