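import Pool.Agent.SKS.I

/-! # Even order: the sign function of helper3 -/

namespace Pool.Agent.SKS

open Finset Function

variable {n : ℕ}

theorem flag_exists (Y : Sys n) {j m : ℕ} (hj1 : 1 ≤ j) (hm : 2 * m + 2 * j < n)
    (hcon : ∀ M : Finset (Fin n), M.card = j → ¬ Y.Cl M) (sg : SV n → ZMod 2)
    (hsg : ∀ σ, UU Y j σ → sg (-σ) = sg σ + 1) :
    ∃ σ, dim σ = m ∧ UU Y j σ ∧ NN sg m σ ≠ 0 := by
  classical
  obtain ⟨c0, h1, h2, h3⟩ := exists_frame (n := n) (j := j) (m := m) (by omega)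
  have hfr0 : Fr j m c0 := ⟨h1, h2, h3⟩
  obtain ⟨c, hc, hmin⟩ := WellFounded.has_min
    (InvImage.wf (fun c : SV n → ZMod 2 =>
      ∑ σ ∈ Bad Y j m c, (Fintype.card (SV n) + 1) ^ RR Y j m σ) Nat.lt_wfRel.wf)
    {c : SV n → ZMod 2 | Fr j m c} ⟨c0, hfr0⟩
  have hempty : Bad Y j m c = ∅ := by
    by_contra hne
    obtain ⟨c', hc', hlt⟩ := step hcon (by omega) hj1 hc (nonempty_iff_ne_empty.2 hne)
    exact hmin c' hc' hlt
  have hsupp : ∀ σ, dim σ ≤ m → c σ ≠ 0 → UU Y j σ := by
    intro σ hd hσ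
    by_contra hU
    have : σ ∈ Bad Y j m c := mem_Bad.2 ⟨hd, hσ, hU⟩
    rw [hempty] at this
    exact notMem_empty _ this
  obtain ⟨σ, hd, hcσ, hN⟩ := lemmaT2 (m := m) (UU Y j) (fun σ h => h.neg)
    (fun σ z ε _ h hz => UU_update hz h) sg hsg c hsupp (fun τ _ => hc.F1 τ) hc.F2
  exact ⟨σ, hd, hsupp σ (by omega) hcσ, hN⟩

/-- a pair of disjoint clopen sets of size at least `j + 1` -/
structure Pr (Y : Sys n) (j : ℕ) (P N : Finset (Fin n)) : Prop where
  p : Y.CO P
  q : Y.CO N
  dis : Disjoint P N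
  cp : j + 1 ≤ P.card
  cq : j + 1 ≤ N.card

theorem Pr.symm {Y : Sys n} {j : ℕ} {P N : Finset (Fin n)} (h : Pr Y j P N) : Pr Y j N P :=
  ⟨h.q, h.p, h.dis.symm, h.cq, h.cp⟩

theorem Pr.card_le {Y : Sys n} {j : ℕ} {P N : Finset (Fin n)} (h : Pr Y j P N) :
    P.card + N.card ≤ n := by
  rw [← card_union_of_disjoint h.dis]
  exact (card_le_univ _).trans (by rw [Fintype.card_fin])

theorem UU_pr {Y : Sys n} {j : ℕ} {σ : SV n} (h : UU Y j σ) :
    Pr Y j (Y.PP j (pos σ)) (Y.PP j (neg σ)) :=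
  ⟨Sys.PP_CO _ _, Sys.PP_CO _ _, Sys.PP_disj (disj_pos_neg σ), Sys.PP_card h.1, Sys.PP_card h.2⟩

theorem PP_facet (Y : Sys n) (j : ℕ) {σ : SV n} {z : Fin n} (ε : SignType) (hz : σ z = 0) :
    Y.PP j (pos σ) ⊆ Y.PP j (pos (update σ z ε)) ∧
    Y.PP j (neg σ) ⊆ Y.PP j (neg (update σ z ε)) := by
  constructor
  · refine Sys.PP_mono ?_
    intro x hx
    rw [mem_pos] at hx ⊢
    by_cases hxz : x = z
    · subst hxz; rw [hz] at hx; exact absurd hx (by decide)
    · rw [update_of_ne hxz]; exact hx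
  · refine Sys.PP_mono ?_
    intro x hx
    rw [mem_neg] at hx ⊢
    by_cases hxz : x = z
    · subst hxz; rw [hz] at hx; exact absurd hx (by decide)
    · rw [update_of_ne hxz]; exact hx

theorem Pr.grow {Y : Sys n} {j : ℕ} {P N P' N' : Finset (Fin n)} (h : Pr Y j P N)
    (h' : Pr Y j P' N') (hP : P ⊆ P') (hN : N ⊆ N') (hne : ¬ (P = P' ∧ N = N')) :
    P.card + N.card + 2 ≤ P'.card + N'.card := by
  have hc1 := card_le_card hP
  have hc2 := card_le_card hN
  by_cases he1 : P = P'
  · by_cases he2 : N = N'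
    · exact absurd ⟨he1, he2⟩ hne
    · have := h.q.gap h'.q hN he2
      omega
  · have := h.p.gap h'.p hP he1
    omega

/-- three steps at the end of an alternating flag -/
structure Fl3 (Y : Sys n) (j : ℕ) (g : Finset (Fin n) → Finset (Fin n) → ZMod 2) : Prop where
  ex : ∃ P0 N0 P1 N1 P2 N2 : Finset (Fin n), Pr Y j P0 N0 ∧ Pr Y j P1 N1 ∧ Pr Y j P2 N2 ∧
    P2 ⊆ P1 ∧ N2 ⊆ N1 ∧ P1 ⊆ P0 ∧ N1 ⊆ N0 ∧
    P0.card + N0.card = n ∧ P1.card + N1.card + 2 = n ∧ P2.card + N2.card + 4 = n ∧
    g P0 N0 ≠ g P1 N1 ∧ g P1 N1 ≠ g P2 N2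

theorem NN_bound (Y : Sys n) {j : ℕ} (g : Finset (Fin n) → Finset (Fin n) → ZMod 2) (i : ℕ) :
    ∀ σ : SV n, UU Y j σ →
      NN (fun σ => g (Y.PP j (pos σ)) (Y.PP j (neg σ))) i σ ≠ 0 →
      (Y.PP j (pos σ)).card + (Y.PP j (neg σ)).card + 2 * i ≤ n := by
  induction i with
  | zero => intro σ hσ _; have := (UU_pr hσ).card_le; omega
  | succ i ih =>
    intro σ hσ hN
    obtain ⟨z, ε, hε, hz, hs, hN'⟩ := NN_step hN
    have hU := UU_update (ε := ε) hz hσ
    have h1 := ih _ hU hN'
    obtain ⟨h2, h3⟩ := PP_facet Y j ε hz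
    have h4 := (UU_pr hσ).grow (UU_pr hU) h2 h3 (fun q => hs (by
      show g _ _ = g _ _
      rw [← q.1, ← q.2]))
    omega

theorem fl3_of_NN (Y : Sys n) {j : ℕ} (g : Finset (Fin n) → Finset (Fin n) → ZMod 2) (i : ℕ) :
    ∀ σ : SV n, UU Y j σ → n ≤ (Y.PP j (pos σ)).card + (Y.PP j (neg σ)).card + 2 * (i + 2) →
      NN (fun σ => g (Y.PP j (pos σ)) (Y.PP j (neg σ))) (i + 2) σ ≠ 0 → Fl3 Y j g := by
  induction i with
  | zero =>
    intro σ hσ hn hN
    have hb2 := NN_bound Y g _ σ hσ hN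
    obtain ⟨z, ε, hε, hz, hs, hN'⟩ := NN_step hN
    have hU := UU_update (ε := ε) hz hσ
    obtain ⟨h2, h3⟩ := PP_facet Y j ε hz
    have h4 := (UU_pr hσ).grow (UU_pr hU) h2 h3 (fun q => hs (by
      show g _ _ = g _ _
      rw [← q.1, ← q.2]))
    have hb1 := NN_bound Y g _ _ hU hN'
    obtain ⟨z', ε', hε', hz', hs', hN''⟩ := NN_step hN'
    have hU' := UU_update (ε := ε') hz' hU
    obtain ⟨h2', h3'⟩ := PP_facet Y j ε' hz'
    have h4' := (UU_pr hU).grow (UU_pr hU') h2' h3' (fun q => hs' (by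
      show g _ _ = g _ _
      rw [← q.1, ← q.2]))
    have hb0 := (UU_pr hU').card_le
    exact ⟨_, _, _, _, _, _, (UU_pr hU'), (UU_pr hU), (UU_pr hσ), h2, h3, h2', h3', by omega, by omega,
      by omega, hs', hs⟩
  | succ i ih =>
    intro σ hσ hn hN
    obtain ⟨z, ε, hε, hz, hs, hN'⟩ := NN_step hN
    have hU := UU_update (ε := ε) hz hσ
    obtain ⟨h2, h3⟩ := PP_facet Y j ε hz
    have h4 := (UU_pr hσ).grow (UU_pr hU) h2 h3 (fun q => hs (by
      show g _ _ = g _ _
      rw [← q.1, ← q.2]))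
    exact ih _ hU (by omega) hN'

/-- the general consequence: every antipodal function on pairs alternates somewhere -/
theorem fl3_exists (Y : Sys n) {j m : ℕ} (hj1 : 1 ≤ j) (hn : n = 2 * j + 2 * (m + 2) + 2)
    (hcon : ∀ M : Finset (Fin n), M.card = j → ¬ Y.Cl M)
    (g : Finset (Fin n) → Finset (Fin n) → ZMod 2)
    (hg : ∀ P N, Pr Y j P N → g N P = g P N + 1) : Fl3 Y j g := by
  obtain ⟨σ, _, hU, hN⟩ := flag_exists Y (j := j) (m := m + 2) hj1 (by omega) hcon
    (fun σ => g (Y.PP j (pos σ)) (Y.PP j (neg σ))) (fun σ hσ => by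
      show g (Y.PP j (pos (-σ))) (Y.PP j (neg (-σ))) = _
      rw [pos_neg, neg_neg']
      exact hg _ _ (UU_pr hσ))
  refine fl3_of_NN Y g m σ hU ?_ hN
  have h1 := (UU_pr hU).cp
  have h2 := (UU_pr hU).cq
  omega

/-! ## uniqueness of partners -/

theorem Cl.inter {Y : Sys n} {A B : Finset (Fin n)} (hA : Y.Cl A) (hB : Y.Cl B) :
    Y.Cl (A ∩ B) := by
  intro u hu hw
  by_cases h : u ∈ A
  · have h' : u ∉ B := fun q => hu (mem_inter.2 ⟨h, q⟩)
    exact hB u h' (Y.mono inter_subset_right hw)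
  · exact hA u h (Y.mono inter_subset_left hw)

theorem pair_uniq {Y : Sys n} {P M M' : Finset (Fin n)} (hM : Y.CO M) (hM' : Y.CO M')
    (h1 : P ⊆ M) (h2 : P ⊆ M') (hc : M.card = P.card + 2) (hc' : M'.card = P.card + 2)
    {a : Fin n} (ha : a ∈ M) (ha' : a ∈ M') (haP : a ∉ P) : M = M' := by
  by_contra hne
  have hns : ¬ M ⊆ M' := fun q => hne (eq_of_subset_of_card_le q (by omega))
  obtain ⟨b, hb, hb'⟩ := not_subset.1 hns
  have hcl : Y.Cl (M ∩ M') := Cl.inter hM.1 hM'.1
  have hsub : insert a P ⊆ M ∩ M' := by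
    intro x hx
    rcases mem_insert.1 hx with rfl | hx
    · exact mem_inter.2 ⟨ha, ha'⟩
    · exact mem_inter.2 ⟨h1 hx, h2 hx⟩
  have hbn : b ∉ M ∩ M' := fun q => hb' (mem_inter.1 q).2
  have hins : insert b (M ∩ M') = M := by
    refine eq_of_subset_of_card_le ?_ ?_
    · intro x hx
      rcases mem_insert.1 hx with rfl | hx
      · exact hb
      · exact (mem_inter.1 hx).1
    · rw [card_insert_of_notMem hbn]
      have := card_le_card hsub
      rw [card_insert_of_notMem haP] at this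
      omega
  have hw : Y.wt b (insert b (M ∩ M')) := by rw [hins]; exact hM.2 b hb
  rw [Y.ins] at hw
  exact hcl b hbn hw

/-- the sign of a gap of two elements -/
def g2 (y z : Fin n) (P N : Finset (Fin n)) : ZMod 2 :=
  if y ∈ P then 0 else if y ∈ N then 1 else if z ∈ P then 0 else 1

/-- a step of two elements, one of them `x`, inside `(P, N)` -/
structure St (Y : Sys n) (j : ℕ) (x : Fin n) (P N P' N' : Finset (Fin n)) : Prop where
  pr : Pr Y j P' N'
  hP : P ⊆ P'
  hN : N ⊆ N'
  xP : x ∉ P'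
  xN : x ∉ N'
  cd : P'.card + N'.card + 2 = n

theorem St.symm {Y : Sys n} {j : ℕ} {x : Fin n} {P N P' N' : Finset (Fin n)}
    (h : St Y j x P N P' N') : St Y j x N P N' P' :=
  ⟨h.pr.symm, h.hN, h.hP, h.xN, h.xP, by rw [add_comm N'.card]; exact h.cd⟩

/-- the hypotheses on the three distinguished elements -/
structure Xyz (Y : Sys n) (x y z : Fin n) : Prop where
  xy : x ≠ y
  xz : x ≠ z
  yz : y ≠ z
  h1 : ∀ (p : Fin n) (S : Finset (Fin n)), y ∉ S → Y.wt x (insert p S) → Y.wt x (insert y S)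
  h2 : ∀ (q : Fin n) (S : Finset (Fin n)), x ∉ S → Y.wt z (insert q S) → Y.wt z (insert x S)

theorem St.alt {Y : Sys n} {j : ℕ} {x : Fin n} {P N P' N' : Finset (Fin n)} (h0 : Pr Y j P N)
    (hc : P.card + N.card + 4 = n) (h : St Y j x P N P' N') :
    (P' = P ∧ N'.card = N.card + 2) ∨ (N' = N ∧ P'.card = P.card + 2) := by
  have h1 := h.cd
  have h2 := card_le_card h.hP
  have h3 := card_le_card h.hN
  by_cases he : P = P'
  · left
    refine ⟨he.symm, ?_⟩
    rw [← he] at h1
    omega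
  · right
    have h4 := h0.p.gap h.pr.p h.hP he
    have h5 : N'.card = N.card := by omega
    refine ⟨(eq_of_subset_of_card_le h.hN (by omega)).symm, by omega⟩

theorem St.compl_card {Y : Sys n} {j : ℕ} {x : Fin n} {P N P' N' : Finset (Fin n)}
    (hc : P.card + N.card + 4 = n) (h : St Y j x P N P' N') (hN : N'.card = N.card + 2) :
    N'ᶜ.card = P.card + 2 := by
  rw [card_compl, Fintype.card_fin]
  omega

theorem two_of_card {P Q : Finset (Fin n)} (hPQ : P ⊆ Q) (hc : Q.card = P.card + 2) {x : Fin n}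
    (hx : x ∈ Q) (hxP : x ∉ P) : ∃ p, p ∉ P ∧ p ≠ x ∧ Q = insert x (insert p P) := by
  have h1 : (Q \ P).card = 2 := by rw [card_sdiff_of_subset hPQ]; omega
  have h2 : ((Q \ P).erase x).card = 1 := by
    rw [card_erase_of_mem (mem_sdiff.2 ⟨hx, hxP⟩), h1]
  obtain ⟨p, hp⟩ := card_eq_one.1 h2
  have h3 : p ∈ (Q \ P).erase x := by rw [hp]; exact mem_singleton_self _
  rw [mem_erase, mem_sdiff] at h3
  refine ⟨p, h3.2.2, h3.1, ?_⟩
  ext w
  rw [mem_insert, mem_insert]
  constructor
  · intro hw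
    by_cases hwP : w ∈ P
    · exact Or.inr (Or.inr hwP)
    · by_cases hwx : w = x
      · exact Or.inl hwx
      · have : w ∈ (Q \ P).erase x := mem_erase.2 ⟨hwx, mem_sdiff.2 ⟨hw, hwP⟩⟩
        rw [hp, mem_singleton] at this
        exact Or.inr (Or.inl this)
  · rintro (rfl | rfl | hw)
    · exact hx
    · exact h3.2.1
    · exact hPQ hw

/-- the mixed case -/
theorem agree_mixed {Y : Sys n} {j : ℕ} {x y z : Fin n} (hX : Xyz Y x y z)
    {P N N' P'' : Finset (Fin n)} (h0 : Pr Y j P N) (hc : P.card + N.card + 4 = n)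
    (h' : St Y j x P N P N') (hN' : N'.card = N.card + 2)
    (h'' : St Y j x P N P'' N) (hP'' : P''.card = P.card + 2) :
    g2 y z P N' = g2 y z P'' N := by
  have hQ : Y.CO N'ᶜ := h'.pr.q.compl
  have hPQ : P ⊆ N'ᶜ := by
    intro w hw
    rw [mem_compl]
    exact fun q => disjoint_left.1 h'.pr.dis hw q
  have hQc : N'ᶜ.card = P.card + 2 := h'.compl_card hc hN'
  have hxQ : x ∈ N'ᶜ := mem_compl.2 h'.xN
  -- `Q` and `P''` share only `P`
  have hshare : ∀ a, a ∈ N'ᶜ → a ∈ P'' → a ∈ P := by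
    intro a ha ha'
    by_contra haP
    have := pair_uniq hQ h''.pr.p hPQ h''.hP hQc hP'' ha ha' haP
    exact h''.xP (this ▸ hxQ)
  obtain ⟨p, hpP, hpx, hQe⟩ := two_of_card hPQ hQc hxQ h'.xP
  have hwx : Y.wt x (insert p P) := by
    have h1 := hQ.2 x hxQ
    rw [hQe, Y.ins] at h1
    exact h1
  unfold g2
  by_cases hyP : y ∈ P
  · rw [if_pos hyP, if_pos (h''.hP hyP)]
  · rw [if_neg hyP]
    -- `y ∉ P''`
    have hyP'' : y ∉ P'' := by
      intro hy
      have h1 : Y.wt x (insert y P) := hX.h1 p P hyP hwx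
      have h2 : insert y P ⊆ P'' := by
        intro w hw
        rcases mem_insert.1 hw with rfl | hw
        · exact hy
        · exact h''.hP hw
      exact h''.pr.p.1 x h''.xP (Y.mono h2 h1)
    rw [if_neg hyP'']
    by_cases hyN : y ∈ N
    · rw [if_pos (h'.hN hyN), if_pos hyN]
    · rw [if_neg hyN]
      -- `y ∉ N'` : the four elements are `Q ∖ P` and `P'' ∖ P`
      have hyN' : y ∉ N' := by
        intro hy
        have hN'' : N' ⊆ N ∪ (P'' \ P) := by
          have hsub : N ∪ (P'' \ P) ⊆ N' := by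
            intro w hw
            rcases mem_union.1 hw with hw | hw
            · exact h'.hN hw
            · rw [mem_sdiff] at hw
              by_contra hwN
              exact hw.2 (hshare w (mem_compl.2 hwN) hw.1)
          have hdis : Disjoint N (P'' \ P) := by
            rw [disjoint_left]
            intro w hw hw'
            exact disjoint_left.1 h''.pr.dis (mem_sdiff.1 hw').1 hw
          have hcard : N'.card ≤ (N ∪ (P'' \ P)).card := by
            rw [card_union_of_disjoint hdis, card_sdiff_of_subset h''.hP]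
            omega
          rw [eq_of_subset_of_card_le hsub hcard]
        rcases mem_union.1 (hN'' hy) with h1 | h1
        · exact hyN h1
        · exact hyP'' (mem_sdiff.1 h1).1
      rw [if_neg hyN']
      -- `z`
      by_cases hzP : z ∈ P
      · rw [if_pos hzP, if_pos (h''.hP hzP)]
      · rw [if_neg hzP]
        have hzP'' : z ∉ P'' := by
          intro hz
          have hzQ : z ∉ N'ᶜ := fun q => hzP (hshare z q hz)
          obtain ⟨q, hqP, hqz, hPe⟩ := two_of_card h''.hP hP'' hz hzP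
          have h1 : Y.wt z (insert q P) := by
            have h2 := h''.pr.p.2 z hz
            rw [hPe, Y.ins] at h2
            exact h2
          have h2 : Y.wt z (insert x P) := hX.h2 q P h'.xP h1
          have h3 : insert x P ⊆ N'ᶜ := by
            intro w hw
            rcases mem_insert.1 hw with rfl | hw
            · exact hxQ
            · exact hPQ hw
          exact hQ.1 z hzQ (Y.mono h3 h2)
        rw [if_neg hzP'']

theorem agree {Y : Sys n} {j : ℕ} {x y z : Fin n} (hX : Xyz Y x y z)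
    {P N P' N' P'' N'' : Finset (Fin n)} (h0 : Pr Y j P N) (hc : P.card + N.card + 4 = n)
    (h' : St Y j x P N P' N') (h'' : St Y j x P N P'' N'') :
    g2 y z P' N' = g2 y z P'' N'' := by
  rcases h'.alt h0 hc with ⟨e1, c1⟩ | ⟨e1, c1⟩ <;> rcases h''.alt h0 hc with ⟨e2, c2⟩ | ⟨e2, c2⟩
  · subst e1; subst e2
    have h1 : N'ᶜ = N''ᶜ := by
      refine pair_uniq (P := P'') h'.pr.q.compl h''.pr.q.compl ?_ ?_ (h'.compl_card hc c1)
        (h''.compl_card hc c2) (mem_compl.2 h'.xN) (mem_compl.2 h''.xN) h'.xP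
      · intro w hw
        rw [mem_compl]
        exact fun q => disjoint_left.1 h'.pr.dis hw q
      · intro w hw
        rw [mem_compl]
        exact fun q => disjoint_left.1 h''.pr.dis hw q
    rw [compl_injective h1]
  · subst e1; subst e2
    exact agree_mixed hX h0 hc h' c1 h'' c2
  · subst e1; subst e2
    exact (agree_mixed hX h0 hc h'' c2 h' c1).symm
  · subst e1; subst e2
    have hc' : N''.card + P.card + 4 = n := by omega
    have h1 : P'ᶜ = P''ᶜ := by
      refine pair_uniq (P := N'') h'.pr.p.compl h''.pr.p.compl ?_ ?_ (h'.symm.compl_card hc' c1)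
        (h''.symm.compl_card hc' c2) (mem_compl.2 h'.xP) (mem_compl.2 h''.xP) h'.xN
      · intro w hw
        rw [mem_compl]
        exact fun q => disjoint_left.1 h'.pr.dis q hw
      · intro w hw
        rw [mem_compl]
        exact fun q => disjoint_left.1 h''.pr.dis q hw
    rw [compl_injective h1]

/-- a default antipodal sign -/
noncomputable def dflt (P N : Finset (Fin n)) : ZMod 2 := if key P < key N then 0 else 1

open Classical in
/-- the sign of a gap of four elements -/
noncomputable def g4 (Y : Sys n) (j : ℕ) (x y z : Fin n) (P N : Finset (Fin n)) : ZMod 2 :=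
  if ∃ P' N', St Y j x P N P' N' ∧ g2 y z P' N' = 0 then 0
  else if ∃ P' N', St Y j x P N P' N' then 1 else dflt P N

open Classical in
/-- the sign function -/
noncomputable def gg (Y : Sys n) (j : ℕ) (x y z : Fin n) (P N : Finset (Fin n)) : ZMod 2 :=
  if x ∈ P then 0 else if x ∈ N then 1
  else if P.card + N.card + 2 = n then g2 y z P N
  else if P.card + N.card + 4 = n then g4 Y j x y z P N
  else dflt P N

theorem dflt_anti {P N : Finset (Fin n)} (h : P ≠ N) : dflt N P = dflt P N + 1 := by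
  have h1 : key P ≠ key N := fun q => h (key_inj q)
  unfold dflt
  by_cases h2 : key P < key N
  · rw [if_pos h2, if_neg (by omega)]; decide
  · rw [if_neg h2, if_pos (by omega)]; decide

theorem g2_anti {x y z : Fin n} (hxy : x ≠ y) (hxz : x ≠ z) (hyz : y ≠ z)
    {P N : Finset (Fin n)} (hd : Disjoint P N) (hc : P.card + N.card + 2 = n)
    (hxP : x ∉ P) (hxN : x ∉ N) : g2 y z N P = g2 y z P N + 1 := by
  unfold g2
  by_cases hyP : y ∈ P
  · have hyN : y ∉ N := fun q => disjoint_left.1 hd hyP q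
    rw [if_neg hyN, if_pos hyP, if_pos hyP]; decide
  · by_cases hyN : y ∈ N
    · rw [if_pos hyN, if_neg hyP, if_pos hyN]; decide
    · rw [if_neg hyN, if_neg hyP, if_neg hyP, if_neg hyN]
      have hz : z ∈ P ∨ z ∈ N := by
        by_contra hcon
        rw [not_or] at hcon
        have hsub : {x, y, z} ⊆ (P ∪ N)ᶜ := by
          intro w hw
          rw [mem_compl, mem_union, not_or]
          simp only [mem_insert, mem_singleton] at hw
          rcases hw with rfl | rfl | rfl
          · exact ⟨hxP, hxN⟩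
          · exact ⟨hyP, hyN⟩
          · exact hcon
        have h1 := card_le_card hsub
        rw [card_compl, card_union_of_disjoint hd, Fintype.card_fin] at h1
        have h2 : ({x, y, z} : Finset (Fin n)).card = 3 := by
          rw [card_insert_of_notMem (by simp [hxy, hxz]), card_insert_of_notMem (by simp [hyz]),
            card_singleton]
        omega
      rcases hz with h | h
      · have h' : z ∉ N := fun q => disjoint_left.1 hd h q
        rw [if_neg h', if_pos h]; decide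
      · have h' : z ∉ P := fun q => disjoint_left.1 hd q h
        rw [if_pos h, if_neg h']; decide

theorem gg_anti {Y : Sys n} {j : ℕ} {x y z : Fin n} (hX : Xyz Y x y z)
    {P N : Finset (Fin n)} (h0 : Pr Y j P N) :
    gg Y j x y z N P = gg Y j x y z P N + 1 := by
  classical
  have hne : P ≠ N := by
    intro q
    have h1 := h0.dis
    rw [q, disjoint_self] at h1
    have h2 := h0.cq
    rw [h1] at h2
    simp at h2
  unfold gg
  by_cases hxP : x ∈ P
  · have hxN : x ∉ N := fun q => disjoint_left.1 h0.dis hxP q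
    rw [if_neg hxN, if_pos hxP, if_pos hxP]; decide
  · by_cases hxN : x ∈ N
    · rw [if_pos hxN, if_neg hxP, if_pos hxN]; decide
    · rw [if_neg hxN, if_neg hxP, if_neg hxP, if_neg hxN, add_comm N.card P.card]
      by_cases h2 : P.card + N.card + 2 = n
      · rw [if_pos h2, if_pos h2]
        exact g2_anti hX.xy hX.xz hX.yz h0.dis h2 hxP hxN
      · rw [if_neg h2, if_neg h2]
        by_cases h4 : P.card + N.card + 4 = n
        · rw [if_pos h4, if_pos h4]
          have hsw : ∀ {A B A' B' : Finset (Fin n)}, St Y j x A B A' B' →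
              g2 y z B' A' = g2 y z A' B' + 1 := fun h =>
            g2_anti hX.xy hX.xz hX.yz h.pr.dis h.cd h.xP h.xN
          have h4' : N.card + P.card + 4 = n := by omega
          unfold g4
          by_cases e1 : ∃ P' N', St Y j x P N P' N' ∧ g2 y z P' N' = 0
          · obtain ⟨P', N', hS, hg⟩ := e1
            have e2 : ¬ ∃ P'' N'', St Y j x N P P'' N'' ∧ g2 y z P'' N'' = 0 := by
              rintro ⟨P'', N'', hS', hg'⟩
              have h5 := agree hX h0.symm h4' hS.symm hS'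
              rw [hg', hsw hS, hg] at h5
              exact absurd h5 (by decide)
            rw [if_neg e2, if_pos ⟨N', P', hS.symm⟩, if_pos ⟨P', N', hS, hg⟩]; decide
          · rw [if_neg e1]
            by_cases e3 : ∃ P' N', St Y j x P N P' N'
            · obtain ⟨P', N', hS⟩ := e3
              have hg : g2 y z P' N' = 1 := by
                rcases zmod2_cases (g2 y z P' N') with h | h
                · exact absurd ⟨P', N', hS, h⟩ e1
                · exact h
              have e4 : ∃ P'' N'', St Y j x N P P'' N'' ∧ g2 y z P'' N'' = 0 :=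
                ⟨N', P', hS.symm, by rw [hsw hS, hg]; decide⟩
              rw [if_pos e4, if_pos ⟨P', N', hS⟩]; decide
            · have e5 : ¬ ∃ P'' N'', St Y j x N P P'' N'' := by
                rintro ⟨P'', N'', hS⟩
                exact e3 ⟨N'', P'', hS.symm⟩
              have e6 : ¬ ∃ P'' N'', St Y j x N P P'' N'' ∧ g2 y z P'' N'' = 0 := by
                rintro ⟨P'', N'', hS, _⟩
                exact e5 ⟨P'', N'', hS⟩
              rw [if_neg e6, if_neg e5, if_neg e3]
              exact dflt_anti hne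
        · rw [if_neg h4, if_neg h4]
          exact dflt_anti hne

theorem no_fl3 {Y : Sys n} {j : ℕ} {x y z : Fin n} (hX : Xyz Y x y z) :
    ¬ Fl3 Y j (gg Y j x y z) := by
  classical
  rintro ⟨P0, N0, P1, N1, P2, N2, hp0, hp1, hp2, hP21, hN21, hP10, hN10, c0, c1, c2, hne1, hne2⟩
  have hxP1 : x ∉ P1 := by
    intro h
    apply hne1
    unfold gg
    rw [if_pos h, if_pos (hP10 h)]
  have hxN1 : x ∉ N1 := by
    intro h
    apply hne1
    unfold gg
    rw [if_neg (fun q => disjoint_left.1 hp0.dis q (hN10 h)), if_pos (hN10 h), if_neg hxP1,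
      if_pos h]
  have hxP2 : x ∉ P2 := fun q => hxP1 (hP21 q)
  have hxN2 : x ∉ N2 := fun q => hxN1 (hN21 q)
  have hS : St Y j x P2 N2 P1 N1 := ⟨hp1, hP21, hN21, hxP1, hxN1, c1⟩
  apply hne2
  unfold gg
  rw [if_neg hxP1, if_neg hxN1, if_pos c1, if_neg hxP2, if_neg hxN2, if_neg (by omega),
    if_pos c2]
  unfold g4
  rcases zmod2_cases (g2 y z P1 N1) with h | h
  · rw [if_pos ⟨P1, N1, hS, h⟩, h]
  · have e : ¬ ∃ P' N', St Y j x P2 N2 P' N' ∧ g2 y z P' N' = 0 := by
      rintro ⟨P', N', hS', hg⟩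
      have h5 := agree hX hp2 c2 hS hS'
      rw [h, hg] at h5
      exact absurd h5 (by decide)
    rw [if_neg e, if_pos ⟨P1, N1, hS⟩, h]

/-- **Theorem (even order, gap at least six)**, by helper3. -/
theorem exists_closed_even (Y : Sys n) {j m : ℕ} (hn : n = 2 * j + 2 * (m + 2) + 2)
    {x y z : Fin n} (hX : Xyz Y x y z) : ∃ M : Finset (Fin n), M.card = j ∧ Y.Cl M := by
  rcases Nat.eq_zero_or_pos j with hj0 | hj1
  · subst hj0
    exact ⟨∅, card_empty, Sys.cl_empty⟩
  by_contra hcon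
  push Not at hcon
  exact no_fl3 hX (fl3_exists Y hj1 hn hcon _ (fun P N h => gg_anti hX h))

end Pool.Agent.SKS
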