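import Pool.Agent.SKS.H
import Pool.Agent.SKS.J

/-! # Even order, simple graphs, gap at least six -/

namespace Pool.Agent.SKS

open Finset

variable {n : ℕ}

theorem PW_le {W : Fin n → Fin n → ℕ} {u p q : Fin n} (huq : u ≠ q) (hW : W u p ≤ W u q)
    (hc : p ≠ u → cod u p ≤ cod u q) : PW W u p ≤ PW W u q := by
  by_cases hp : u = p
  · subst hp; rw [PW_self]; exact Nat.zero_le _
  · rw [PW_ne W hp, PW_ne W huq]
    exact Nat.add_le_add (Nat.mul_le_mul_left _ hW)
      (Nat.pow_le_pow_right (by norm_num) (hc (fun q => hp q.symm)))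

theorem sum_insert_le {F : Fin n → ℕ} {p q : Fin n} {S : Finset (Fin n)} (hq : q ∉ S)
    (h : F p ≤ F q) : ∑ v ∈ insert p S, F v ≤ ∑ v ∈ insert q S, F v := by
  rw [sum_insert hq]
  by_cases hp : p ∈ S
  · rw [insert_eq_of_mem hp]; omega
  · rw [sum_insert hp]; omega

theorem xyz_sysOf (hn : 2 ≤ n) (W : Fin n → Fin n → ℕ) (hW : ∀ u v, W u v = W v u)
    (hW1 : ∀ u v, W u v ≤ 1) {x y z : Fin n} (hx : x.val + 1 = n) (hy : y.val + 2 = n)
    (hz : z.val + 3 = n) (hxy : W x y = 1) (hxz : W x z = 1) : Xyz (sysOf hn W hW) x y z := by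
  have nxy : x ≠ y := fun q => by have := congrArg Fin.val q; omega
  have nxz : x ≠ z := fun q => by have := congrArg Fin.val q; omega
  have nyz : y ≠ z := fun q => by have := congrArg Fin.val q; omega
  refine ⟨nxy, nxz, nyz, ?_, ?_⟩
  · intro p S hyS h
    have h1 : PW W x p ≤ PW W x y := by
      refine PW_le nxy (by rw [hxy]; exact hW1 _ _) (fun hp => ?_)
      have hpv : p.val < x.val := by
        have : p.val ≠ x.val := fun q => hp (Fin.ext q)
        have := p.isLt
        omega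
      unfold cod
      rw [min_eq_right hpv.le, max_eq_left hpv.le, min_eq_right (by omega), max_eq_left (by omega)]
      by_cases hpy : p.val = y.val
      · rw [hpy]
      · exact (Nat.pair_lt_pair_left _ (by omega)).le
    exact lt_of_lt_of_le h (Nat.mul_le_mul_left 2 (sum_insert_le hyS h1))
  · intro p S hxS h
    have h1 : PW W z p ≤ PW W z x := by
      refine PW_le nxz.symm (by rw [hW z x, hxz]; exact hW1 _ _) (fun hp => ?_)
      have hpz : p.val ≠ z.val := fun q => hp (Fin.ext q)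
      have hpn := p.isLt
      unfold cod
      rw [min_eq_left (a := z.val) (b := x.val) (by omega),
        max_eq_right (a := z.val) (b := x.val) (by omega)]
      rcases lt_or_gt_of_ne hpz with h2 | h2
      · rw [min_eq_right h2.le, max_eq_left h2.le]
        exact ((Nat.pair_lt_pair_left _ h2).trans (Nat.pair_lt_pair_right _ (by omega))).le
      · rw [min_eq_left h2.le, max_eq_right h2.le]
        by_cases hpx : p.val = x.val
        · rw [hpx]
        · exact (Nat.pair_lt_pair_right _ (by omega)).le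
    exact lt_of_lt_of_le h (Nat.mul_le_mul_left 2 (sum_insert_le hxS h1))

/-- from a closed set of the perturbed system to the weighted graph -/
theorem closed_of_sys (hn : 2 ≤ n) (W : Fin n → Fin n → ℕ) (hW : ∀ u v, W u v = W v u)
    {M : Finset (Fin n)} (hcl : (sysOf hn W hW).Cl M) {u : Fin n} (hu : u ∉ M) :
    ∑ v ∈ M, W u v ≤ ∑ v ∈ Mᶜ.erase u, W u v := by
  have h1 : ¬ (∑ v : Fin n, PW W u v < 2 * ∑ v ∈ M, PW W u v) := hcl u hu
  have h2 : ∑ v : Fin n, PW W u v = ∑ v ∈ M, PW W u v + ∑ v ∈ Mᶜ, PW W u v :=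
    (sum_add_sum_compl M _).symm
  have h3 : ∑ v ∈ Mᶜ, PW W u v = ∑ v ∈ Mᶜ.erase u, PW W u v := by
    rw [← add_sum_erase Mᶜ _ (mem_compl.2 hu), PW_self, zero_add]
  rw [h3, star_sum W u _ (notMem_erase _ _)] at h2
  rw [star_sum W u M hu] at h1 h2
  have h4 := star_small u (Mᶜ.erase u)
  by_contra hcon
  rw [not_le] at hcon
  have h5 : Bmul n * (∑ v ∈ Mᶜ.erase u, W u v + 1) ≤ Bmul n * ∑ v ∈ M, W u v :=
    Nat.mul_le_mul_left _ hcon
  rw [Nat.mul_add, Nat.mul_one] at h5
  omega

theorem relabel {V : Type*} [Fintype V] (hV : Fintype.card V = n) (hn : 3 ≤ n) {a b c : V}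
    (hab : a ≠ b) (hac : a ≠ c) (hbc : b ≠ c) :
    ∃ e : V ≃ Fin n, (e a).val + 1 = n ∧ (e b).val + 2 = n ∧ (e c).val + 3 = n := by
  classical
  let e0 : V ≃ Fin n := Fintype.equivFinOfCardEq hV
  let x : Fin n := ⟨n - 1, by omega⟩
  let y : Fin n := ⟨n - 2, by omega⟩
  let z : Fin n := ⟨n - 3, by omega⟩
  have nxy : x ≠ y := fun q => by have := congrArg Fin.val q; simp only [x, y] at this; omega
  have nxz : x ≠ z := fun q => by have := congrArg Fin.val q; simp only [x, z] at this; omega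
  have nyz : y ≠ z := fun q => by have := congrArg Fin.val q; simp only [y, z] at this; omega
  let e1 : V ≃ Fin n := e0.trans (Equiv.swap (e0 a) x)
  have h1a : e1 a = x := Equiv.swap_apply_left _ _
  let e2 : V ≃ Fin n := e1.trans (Equiv.swap (e1 b) y)
  have h1b : e1 b ≠ x := fun q => hab (e1.injective (by rw [h1a, q]))
  have h2b : e2 b = y := Equiv.swap_apply_left _ _
  have h2a : e2 a = x := by
    show Equiv.swap (e1 b) y (e1 a) = x
    rw [h1a]
    exact Equiv.swap_apply_of_ne_of_ne h1b.symm nxy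
  let e3 : V ≃ Fin n := e2.trans (Equiv.swap (e2 c) z)
  have h2ca : e2 c ≠ x := fun q => hac (e2.injective (by rw [h2a, q]))
  have h2cb : e2 c ≠ y := fun q => hbc (e2.injective (by rw [h2b, q]))
  have h3c : e3 c = z := Equiv.swap_apply_left _ _
  have h3a : e3 a = x := by
    show Equiv.swap (e2 c) z (e2 a) = x
    rw [h2a]
    exact Equiv.swap_apply_of_ne_of_ne h2ca.symm nxz
  have h3b : e3 b = y := by
    show Equiv.swap (e2 c) z (e2 b) = y
    rw [h2b]
    exact Equiv.swap_apply_of_ne_of_ne h2cb.symm nyz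
  refine ⟨e3, ?_, ?_, ?_⟩
  · rw [h3a]; simp only [x]; omega
  · rw [h3b]; simp only [y]; omega
  · rw [h3c]; simp only [z]; omega

/-- transport of a closed set along a bijection -/
theorem transport {V : Type*} [Fintype V] [DecidableEq V] (W : V → V → ℕ) (e : V ≃ Fin n)
    {j : ℕ} (h : ∃ M : Finset (Fin n), M.card = j ∧ ∀ u, u ∉ M →
      ∑ v ∈ M, W (e.symm u) (e.symm v) ≤ ∑ v ∈ Mᶜ.erase u, W (e.symm u) (e.symm v)) :
    ∃ M : Finset V, M.card = j ∧ ∀ u, u ∉ M →
      ∑ v ∈ M, W u v ≤ ∑ v ∈ Mᶜ.erase u, W u v := by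
  obtain ⟨M, hM, h⟩ := h
  refine ⟨M.map e.symm.toEmbedding, by rw [card_map, hM], fun u hu => ?_⟩
  have hu' : e u ∉ M := by
    intro q
    exact hu (mem_map.2 ⟨e u, q, by simp⟩)
  have h1 := h (e u) hu'
  have h2 : (M.map e.symm.toEmbedding)ᶜ.erase u = (Mᶜ.erase (e u)).map e.symm.toEmbedding := by
    ext x
    simp only [mem_erase, mem_compl, mem_map, Equiv.coe_toEmbedding]
    constructor
    · rintro ⟨hx1, hx2⟩
      refine ⟨e x, ⟨fun q => hx1 (e.injective q), fun q => hx2 ⟨e x, q, by simp⟩⟩, by simp⟩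
    · rintro ⟨a, ⟨ha1, ha2⟩, rfl⟩
      refine ⟨fun q => ha1 (by rw [← q]; simp), ?_⟩
      rintro ⟨b, hb, hba⟩
      exact ha2 ((e.symm.injective hba) ▸ hb)
  rw [h2, sum_map, sum_map]
  simpa using h1

/-- **Theorem (even order)**: a simple graph of even order `n ≥ 2 j + 6` with a vertex of degree
at least two has a set `M` of `j` vertices such that every other vertex has at least half of its
neighbours outside `M`. -/
theorem simple_even {V : Type*} [Fintype V] [DecidableEq V] (G : SimpleGraph V)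
    [DecidableRel G.Adj] (hn : Even (Fintype.card V)) {j : ℕ}
    (hj : 2 * j + 6 ≤ Fintype.card V) {a b c : V} (hab : G.Adj a b) (hac : G.Adj a c)
    (hbc : b ≠ c) :
    ∃ M : Finset V, M.card = j ∧ ∀ u, u ∉ M →
      ∑ v ∈ M, (if G.Adj u v then 1 else 0) ≤ ∑ v ∈ Mᶜ.erase u, (if G.Adj u v then 1 else 0) := by
  obtain ⟨t, ht⟩ := hn
  obtain ⟨e, ha, hb, hc⟩ := relabel (n := Fintype.card V) rfl (by omega) (a := a) (b := b)
    (c := c) hab.ne hac.ne hbc
  refine transport (fun u v : V => if G.Adj u v then 1 else 0) e ?_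
  have hW : ∀ u v : Fin (Fintype.card V), (if G.Adj (e.symm u) (e.symm v) then 1 else 0) =
      if G.Adj (e.symm v) (e.symm u) then 1 else 0 := by
    intro u v
    simp [G.adj_comm (e.symm u) (e.symm v)]
  have hX := xyz_sysOf (n := Fintype.card V) (by omega)
    (fun u v => if G.Adj (e.symm u) (e.symm v) then 1 else 0) hW
    (fun u v => by split_ifs <;> omega) ha hb hc (by simp [hab]) (by simp [hac])
  obtain ⟨M, hM, hcl⟩ := exists_closed_even (sysOf (n := Fintype.card V) (by omega)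
    (fun u v => if G.Adj (e.symm u) (e.symm v) then 1 else 0) hW) (j := j) (m := t - j - 3)
    (by omega) hX
  exact ⟨M, hM, fun u hu => closed_of_sys _ _ hW hcl hu⟩

end Pool.Agent.SKS
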